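import Pool.Agent.X153.Riv.Ker

set_option autoImplicit false
open MeasureTheory Set Filter Topology Real Metric
open scoped ContDiff

namespace Pool.Agent.X153.Riv

/-- a smooth bump on the line, supported in `(1, 2)` -/
noncomputable def phb : ContDiffBump (3 / 2 : ℝ) := ⟨1 / 4, 1 / 2, by norm_num, by norm_num⟩

noncomputable def ph (r : ℝ) : ℝ := phb r

lemma ph_smooth : ContDiff ℝ ∞ ph := phb.contDiff

lemma ph_nonneg (r : ℝ) : 0 ≤ ph r := phb.nonneg

lemma ph_le_one (r : ℝ) : ph r ≤ 1 := phb.le_one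

lemma ph_zero {r : ℝ} (h : ¬ (1 < r ∧ r < 2)) : ph r = 0 := by
  apply phb.zero_of_le_dist
  show (1 / 2 : ℝ) ≤ dist r (3 / 2)
  rw [Real.dist_eq]
  by_contra hc
  push Not at hc
  rw [abs_lt] at hc
  exact h ⟨by linarith, by linarith⟩

lemma ph_pos {r : ℝ} (h1 : 1 < r) (h2 : r < 2) : 0 < ph r := by
  apply phb.pos_of_mem_ball
  show dist r (3 / 2) < 1 / 2
  rw [Real.dist_eq, abs_lt]
  constructor <;> linarith

/-- direction -/
noncomputable def dir (z : ℂ) : ℂ := ((‖z‖⁻¹ : ℝ) : ℂ) * z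

lemma dir_norm_le (z : ℂ) : ‖dir z‖ ≤ 1 := by
  unfold dir
  rw [norm_mul, Complex.norm_real, norm_inv, norm_norm]
  by_cases h : ‖z‖ = 0
  · rw [h]; simp
  · rw [inv_mul_cancel₀ h]

lemma dir_mul {w : ℂ} (hw : ‖w‖ = 1) (z : ℂ) : dir (w * z) = w * dir z := by
  unfold dir
  rw [norm_mul, hw, one_mul]
  ring

/-- the building blocks -/
noncomputable def FF (N : ℕ) (z : ℂ) : ℂ := ((ph (‖z‖ / N) : ℝ) : ℂ) * dir z ^ N

lemma FF_norm (N : ℕ) (z : ℂ) : ‖FF N z‖ ≤ 1 := by
  unfold FF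
  rw [norm_mul, norm_pow, Complex.norm_real, Real.norm_eq_abs, abs_of_nonneg (ph_nonneg _)]
  exact mul_le_one₀ (ph_le_one _) (by positivity) (pow_le_one₀ (norm_nonneg _) (dir_norm_le z))

lemma FF_zero {N : ℕ} (hN : 0 < N) {z : ℂ} (h : ¬ ((N:ℝ) < ‖z‖ ∧ ‖z‖ < 2 * N)) : FF N z = 0 := by
  unfold FF
  have hN' : (0:ℝ) < N := by exact_mod_cast hN
  rw [ph_zero, Complex.ofReal_zero, zero_mul]
  rintro ⟨h1, h2⟩
  apply h
  rw [lt_div_iff₀ hN'] at h1
  rw [div_lt_iff₀ hN'] at h2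
  constructor <;> linarith

lemma FF_rot {w : ℂ} (hw : ‖w‖ = 1) (N : ℕ) (z : ℂ) : FF N (w * z) = w ^ N * FF N z := by
  unfold FF
  rw [dir_mul hw, norm_mul, hw, one_mul, mul_pow]
  ring

lemma FF_smooth {N : ℕ} (hN : 0 < N) : ContDiff ℝ 1 (FF N) := by
  have hN' : (0:ℝ) < N := by exact_mod_cast hN
  rw [contDiff_iff_contDiffAt]
  intro z
  by_cases hz : z = 0
  · have h1 : FF N =ᶠ[𝓝 z] fun _ => 0 := by
      rw [hz]
      filter_upwards [ball_mem_nhds (0:ℂ) hN'] with w hw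
      apply FF_zero hN
      rw [mem_ball_zero_iff] at hw
      intro hc
      linarith [hc.1]
    exact contDiffAt_const.congr_of_eventuallyEq h1
  · have hn : ContDiffAt ℝ 1 (fun z : ℂ => ‖z‖) z := contDiffAt_norm ℝ hz
    have hnz : ‖z‖ ≠ 0 := norm_ne_zero_iff.2 hz
    have h1 : ContDiffAt ℝ 1 (fun z : ℂ => ph (‖z‖ / N)) z := by
      have := (ph_smooth.of_le (by exact_mod_cast le_top : (1 : WithTop ℕ∞) ≤ ∞)).contDiffAt (x := ‖z‖ / N)
      exact ContDiffAt.comp z this (hn.div_const _)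
    have h2 : ContDiffAt ℝ 1 (fun z : ℂ => ((ph (‖z‖ / N) : ℝ) : ℂ)) z :=
      Complex.ofRealCLM.contDiff.contDiffAt.comp z h1
    have h3 : ContDiffAt ℝ 1 dir z := by
      unfold dir
      exact (Complex.ofRealCLM.contDiff.contDiffAt.comp z (hn.inv hnz)).mul contDiffAt_id
    exact h2.mul (h3.pow N)

lemma FF_cont {N : ℕ} (hN : 0 < N) : Continuous (FF N) := (FF_smooth hN).continuous

/-- the contraction factor -/
noncomputable def cc : ℝ := (Real.sqrt 2)⁻¹

lemma cc_pos : 0 < cc := by unfold cc; positivity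

lemma cc_sq : cc ^ 2 = 1 / 2 := by
  unfold cc
  rw [inv_pow, Real.sq_sqrt (by norm_num)]
  norm_num

lemma cc_lt_one : cc < 1 := by
  have := cc_sq
  have h := cc_pos
  nlinarith

/-- difference of the two averages of a block -/
noncomputable def Ph (N : ℕ) (y : ℂ) : ℂ := ∫ x in ball (0:ℂ) 1, (FF N (cc • x - y) - FF N (x - y))

instance : IsFiniteMeasure (volume.restrict (ball (0:ℂ) 1)) := ⟨by
  rw [Measure.restrict_apply_univ]; exact measure_ball_lt_top⟩

lemma Ph_integrand_int {N : ℕ} (hN : 0 < N) (y : ℂ) :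
    Integrable (fun x : ℂ => FF N (cc • x - y) - FF N (x - y)) (volume.restrict (ball (0:ℂ) 1)) := by
  have hc := FF_cont hN
  refine Integrable.mono' (integrable_const (2:ℝ)) (by fun_prop) (ae_of_all _ fun x => ?_)
  refine (norm_sub_le _ _).trans ?_
  linarith [FF_norm N (cc • x - y), FF_norm N (x - y)]

lemma Ph_cont {N : ℕ} (hN : 0 < N) : Continuous (Ph N) := by
  have hc := FF_cont hN
  unfold Ph
  apply continuous_of_dominated (bound := fun _ => 2)
  · intro y
    exact (Ph_integrand_int hN y).1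
  · intro y
    refine ae_of_all _ fun x => ?_
    refine (norm_sub_le _ _).trans ?_
    linarith [FF_norm N (cc • x - y), FF_norm N (x - y)]
  · exact integrable_const _
  · exact ae_of_all _ fun x => by fun_prop

lemma vol_ball : volume.real (ball (0:ℂ) 1) = π := by
  rw [measureReal_def, Complex.volume_ball]
  simp

lemma Ph_norm {N : ℕ} (y : ℂ) : ‖Ph N y‖ ≤ 2 * π := by
  unfold Ph
  have h := norm_setIntegral_le_of_norm_le_const (μ := volume) (s := ball (0:ℂ) 1) (C := 2)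
    (f := fun x => FF N (cc • x - y) - FF N (x - y)) measure_ball_lt_top (fun x _ => by
      refine (norm_sub_le _ _).trans ?_
      linarith [FF_norm N (cc • x - y), FF_norm N (x - y)])
  rwa [vol_ball] at h

lemma Ph_zero {N : ℕ} (hN : 0 < N) {y : ℂ} (h : ¬ ((N:ℝ) - 1 < ‖y‖ ∧ ‖y‖ < 2 * N + 1)) :
    Ph N y = 0 := by
  unfold Ph
  apply setIntegral_eq_zero_of_forall_eq_zero
  intro x hx
  rw [mem_ball_zero_iff] at hx
  have key : ∀ u : ℂ, ‖u‖ < 1 → FF N (u - y) = 0 := by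
    intro u hu
    apply FF_zero hN
    rintro ⟨h1, h2⟩
    apply h
    have h3 := norm_sub_le u y
    have h4 : ‖y‖ ≤ ‖u - y‖ + ‖u‖ := by
      have := norm_sub_le u (u - y)
      rw [sub_sub_cancel] at this
      linarith
    constructor <;> linarith
  rw [key x hx, key (cc • x), sub_self]
  rw [norm_smul, Real.norm_eq_abs, abs_of_pos cc_pos]
  have := cc_lt_one
  have := cc_pos
  nlinarith [norm_nonneg x]

/-- multiplication by a unimodular number as an isometry -/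
noncomputable def rot (w : ℂ) (hw : ‖w‖ = 1) : ℂ ≃ₗᵢ[ℝ] ℂ :=
  rotation ⟨w, by simpa [Submonoid.unitSphere] using hw⟩

lemma rot_apply (w : ℂ) (hw : ‖w‖ = 1) (z : ℂ) : rot w hw z = w * z := rfl

lemma Ph_rot {w : ℂ} (hw : ‖w‖ = 1) (N : ℕ) (y : ℂ) : Ph N (w * y) = w ^ N * Ph N y := by
  unfold Ph
  have h1 := (rot w hw).measurePreserving.setIntegral_preimage_emb
    (rot w hw).toHomeomorph.measurableEmbedding
    (fun x => FF N (cc • x - w * y) - FF N (x - w * y)) (ball (0:ℂ) 1)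
  have h2 : (⇑(rot w hw)) ⁻¹' ball (0:ℂ) 1 = ball (0:ℂ) 1 := by
    ext x
    rw [mem_preimage, mem_ball_zero_iff, mem_ball_zero_iff, LinearIsometryEquiv.norm_map]
  rw [h2] at h1
  rw [← h1, ← integral_const_mul]
  congr 1
  ext x
  rw [rot_apply]
  have e1 : cc • (w * x) - w * y = w * (cc • x - y) := by
    rw [Complex.real_smul, Complex.real_smul]; ring
  have e2 : w * x - w * y = w * (x - y) := by ring
  rw [e1, e2, FF_rot hw, FF_rot hw]
  ring

end Pool.Agent.X153.Riv
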