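import Pool.Agent.X153.Riv.Bump

set_option autoImplicit false
open MeasureTheory Set Filter Topology Real Metric

namespace Pool.Agent.X153.Riv

/-- radial constants -/
noncomputable def cN (N : ℕ) : ℝ := ∫ r in Ioi (0:ℝ), r⁻¹ * (Ph N (r : ℂ)).re

lemma cN_eq {N : ℕ} (hN : 0 < N) :
    cN N = ∫ ρ in Ioi (0:ℝ), ρ⁻¹ * (Ph N ((N * ρ : ℝ) : ℂ)).re := by
  have hN' : (0:ℝ) < N := by exact_mod_cast hN
  have h := integral_comp_mul_left_Ioi (fun r : ℝ => r⁻¹ * (Ph N (r : ℂ)).re) 0 hN'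
  rw [mul_zero, smul_eq_mul] at h
  have h2 : cN N = N * ∫ ρ in Ioi (0:ℝ), ((N:ℝ) * ρ)⁻¹ * (Ph N (((N:ℝ) * ρ : ℝ) : ℂ)).re := by
    rw [h]
    unfold cN
    field_simp
  rw [h2, ← integral_const_mul]
  congr 1
  ext ρ
  rw [mul_inv]
  field_simp

lemma dir_pow (z : ℂ) (n : ℕ) : dir (z ^ n) = dir z ^ n := by
  unfold dir
  rw [norm_pow, mul_pow, ← inv_pow]
  push_cast
  rfl

lemma dir_contAt {z : ℂ} (hz : z ≠ 0) : ContinuousAt dir z := by
  unfold dir
  have : ‖z‖ ≠ 0 := norm_ne_zero_iff.2 hz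
  fun_prop (disch := assumption)

lemma dir_exp_im (t : ℂ) : (dir (Complex.exp t)).re = Real.cos t.im := by
  unfold dir
  rw [Complex.norm_exp, Complex.re_ofReal_mul, Complex.exp_re, ← mul_assoc,
    inv_mul_cancel₀ (Real.exp_pos _).ne', one_mul]

lemma dir_pos_mul {a : ℝ} (ha : 0 < a) (z : ℂ) : dir (a * z) = dir z := by
  unfold dir
  rw [norm_mul, Complex.norm_real, Real.norm_eq_abs, abs_of_pos ha, mul_inv]
  push_cast
  have : (a : ℂ) ≠ 0 := by exact_mod_cast ha.ne'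
  field_simp

lemma dir_neg (z : ℂ) : dir (-z) = - dir z := by
  unfold dir
  rw [norm_neg]
  ring

/-- pointwise limit of the blocks -/
lemma FF_lim {ρ : ℝ} (hρ : 0 < ρ) (x : ℂ) :
    Tendsto (fun m : ℕ => (FF (2 * m) (x - (((2 * m : ℕ) : ℝ) * ρ : ℝ))).re) atTop
      (𝓝 (ph ρ * Real.cos (x.im / ρ))) := by
  have h2m : Tendsto (fun m : ℕ => 2 * m) atTop atTop :=
    tendsto_id.const_mul_atTop' (by norm_num)
  have hdiv : Tendsto (fun m : ℕ => x / (((2 * m : ℕ) : ℝ) : ℂ)) atTop (𝓝 0) := by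
    have h := (tendsto_inv_atTop_nhds_zero_nat (𝕜 := ℝ)).comp h2m
    have h' : Tendsto (fun m : ℕ => x * (((((2 * m : ℕ) : ℝ)⁻¹ : ℝ)) : ℂ)) atTop (𝓝 (x * ((0:ℝ):ℂ))) :=
      tendsto_const_nhds.mul ((Complex.continuous_ofReal.tendsto 0).comp h)
    rw [Complex.ofReal_zero, mul_zero] at h'
    refine h'.congr fun m => ?_
    rw [Complex.ofReal_inv, div_eq_mul_inv]
  -- the radial part
  have hA : Tendsto (fun m : ℕ => ph (‖x - (((2 * m : ℕ) : ℝ) * ρ : ℝ)‖ / ((2 * m : ℕ) : ℝ))) atTop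
      (𝓝 (ph ρ)) := by
    have h1 : Tendsto (fun m : ℕ => ‖x / (((2 * m : ℕ) : ℝ) : ℂ) - (ρ : ℂ)‖) atTop (𝓝 ρ) := by
      have := (hdiv.sub_const (ρ : ℂ)).norm
      rw [zero_sub, norm_neg, Complex.norm_real, Real.norm_eq_abs, abs_of_pos hρ] at this
      exact this
    have h2 := (ph_smooth.continuous.tendsto ρ).comp h1
    refine h2.congr' ?_
    filter_upwards [eventually_gt_atTop 0] with m hm
    have hm' : (0:ℝ) < ((2 * m : ℕ) : ℝ) := by positivity
    show ph (‖x / (((2 * m : ℕ) : ℝ) : ℂ) - (ρ : ℂ)‖) = ph _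
    congr 1
    have hne : (((2 * m : ℕ) : ℝ) : ℂ) ≠ 0 := by exact_mod_cast hm'.ne'
    have e : x / (((2 * m : ℕ) : ℝ) : ℂ) - (ρ : ℂ) =
        (x - (((2 * m : ℕ) : ℝ) * ρ : ℝ)) / (((2 * m : ℕ) : ℝ) : ℂ) := by
      rw [Complex.ofReal_mul]
      field_simp
    rw [e, norm_div, Complex.norm_real, Real.norm_eq_abs, abs_of_pos hm']
  -- the angular part
  have hB : Tendsto (fun m : ℕ => (dir (x - (((2 * m : ℕ) : ℝ) * ρ : ℝ)) ^ (2 * m)).re) atTop
      (𝓝 (Real.cos (x.im / ρ))) := by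
    have h1 := (Complex.tendsto_one_add_div_pow_exp (-(x / ρ))).comp h2m
    have h2 := (dir_contAt (Complex.exp_ne_zero (-(x / ρ)))).tendsto.comp h1
    have h3 := (Complex.continuous_re.tendsto _).comp h2
    rw [dir_exp_im] at h3
    have e0 : (-(x / (ρ:ℂ))).im = -(x.im / ρ) := by
      rw [Complex.neg_im, Complex.div_ofReal_im]
    rw [e0, Real.cos_neg] at h3
    refine h3.congr' ?_
    filter_upwards [eventually_gt_atTop 0] with m hm
    have hm' : (0:ℝ) < ((2 * m : ℕ) : ℝ) := by positivity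
    have hne : (((2 * m : ℕ)) : ℂ) ≠ 0 := by exact_mod_cast hm'.ne'
    have hρ' : (ρ : ℂ) ≠ 0 := by exact_mod_cast hρ.ne'
    show (dir ((1 + -(x / ρ) / ((2 * m : ℕ) : ℂ)) ^ (2 * m))).re = _
    rw [dir_pow]
    have e : x - (((2 * m : ℕ) : ℝ) * ρ : ℝ) =
        -(((((2 * m : ℕ) : ℝ) * ρ : ℝ) : ℂ) * (1 + -(x / ρ) / ((2 * m : ℕ) : ℂ))) := by
      rw [Complex.ofReal_mul, Complex.ofReal_natCast]
      field_simp
      ring
    rw [e, dir_neg, dir_pos_mul (by positivity), Even.neg_pow ⟨m, by ring⟩]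
  have hAB := hA.mul hB
  refine hAB.congr fun m => ?_
  unfold FF
  rw [Complex.re_ofReal_mul]

/-- limit integrand -/
noncomputable def c0i (ρ : ℝ) : ℝ :=
  ∫ x in ball (0:ℂ) 1, (ph ρ * Real.cos ((cc • x).im / ρ) - ph ρ * Real.cos (x.im / ρ))

lemma Ph_re {N : ℕ} (hN : 0 < N) (y : ℂ) :
    (Ph N y).re = ∫ x in ball (0:ℂ) 1, ((FF N (cc • x - y)).re - (FF N (x - y)).re) := by
  unfold Ph
  have h := integral_re (𝕜 := ℂ) (Ph_integrand_int hN y)
  rw [RCLike.re_eq_complex_re] at h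
  exact h.symm

lemma Ph_lim {ρ : ℝ} (hρ : 0 < ρ) :
    Tendsto (fun m : ℕ => (Ph (2 * m) ((((2 * m : ℕ) : ℝ) * ρ : ℝ) : ℂ)).re) atTop (𝓝 (c0i ρ)) := by
  have h1 : Tendsto (fun m : ℕ => ∫ x in ball (0:ℂ) 1,
      ((FF (2 * m) (cc • x - (((2 * m : ℕ) : ℝ) * ρ : ℝ))).re -
        (FF (2 * m) (x - (((2 * m : ℕ) : ℝ) * ρ : ℝ))).re)) atTop (𝓝 (c0i ρ)) := by
    rw [← tendsto_add_atTop_iff_nat 1]
    apply tendsto_integral_of_dominated_convergence (bound := fun _ => (2:ℝ))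
    · intro m
      have hc := FF_cont (N := 2 * (m + 1)) (by positivity)
      apply Continuous.aestronglyMeasurable
      exact (Complex.continuous_re.comp (hc.comp (by fun_prop))).sub
        (Complex.continuous_re.comp (hc.comp (by fun_prop)))
    · exact integrable_const _
    · intro m
      refine ae_of_all _ fun x => ?_
      rw [Real.norm_eq_abs]
      refine (abs_sub _ _).trans ?_
      have h1 := Complex.abs_re_le_norm (FF (2 * (m + 1)) (cc • x - (((2 * (m + 1) : ℕ) : ℝ) * ρ : ℝ)))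
      have h2 := Complex.abs_re_le_norm (FF (2 * (m + 1)) (x - (((2 * (m + 1) : ℕ) : ℝ) * ρ : ℝ)))
      have h3 := FF_norm (2 * (m + 1)) (cc • x - (((2 * (m + 1) : ℕ) : ℝ) * ρ : ℝ))
      have h4 := FF_norm (2 * (m + 1)) (x - (((2 * (m + 1) : ℕ) : ℝ) * ρ : ℝ))
      linarith
    · refine ae_of_all _ fun x => ?_
      exact ((FF_lim hρ (cc • x)).sub (FF_lim hρ x)).comp (tendsto_add_atTop_nat 1)
  refine h1.congr' ?_
  filter_upwards [eventually_gt_atTop 0] with m hm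
  rw [Ph_re (by positivity)]

noncomputable def c0 : ℝ := ∫ ρ in Ioi (0:ℝ), ρ⁻¹ * c0i ρ

/-- dominating function -/
noncomputable def dom (ρ : ℝ) : ℝ := (Icc (1/2:ℝ) 3).indicator (fun _ => 4 * π) ρ

lemma dom_int : Integrable dom (volume.restrict (Ioi (0:ℝ))) := by
  unfold dom
  apply Integrable.integrableOn
  rw [integrable_indicator_iff measurableSet_Icc]
  exact integrableOn_const measure_Icc_lt_top.ne

lemma dom_bound {m : ℕ} (hm : 0 < m) {ρ : ℝ} (hρ : 0 < ρ) :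
    |ρ⁻¹ * (Ph (2 * m) ((((2 * m : ℕ) : ℝ) * ρ : ℝ) : ℂ)).re| ≤ dom ρ := by
  have hm' : (1:ℝ) ≤ m := by exact_mod_cast hm
  have hm2 : (((2 * m : ℕ)) : ℝ) = 2 * m := by push_cast; ring
  unfold dom
  by_cases hI : ρ ∈ Icc (1/2:ℝ) 3
  · rw [indicator_of_mem hI, abs_mul, abs_of_pos (inv_pos.2 hρ)]
    have h1 : ρ⁻¹ ≤ 2 := by
      rw [inv_le_comm₀ hρ (by norm_num)]
      have := hI.1
      linarith
    have h2 := (Complex.abs_re_le_norm (Ph (2 * m) ((((2 * m : ℕ) : ℝ) * ρ : ℝ) : ℂ))).trans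
      (Ph_norm _)
    have h3 : 0 < ρ⁻¹ := inv_pos.2 hρ
    calc ρ⁻¹ * |(Ph (2 * m) ((((2 * m : ℕ) : ℝ) * ρ : ℝ) : ℂ)).re| ≤ 2 * (2 * π) :=
          mul_le_mul h1 h2 (abs_nonneg _) (by norm_num)
      _ = 4 * π := by ring
  · rw [indicator_of_notMem hI, Ph_zero (by positivity)]
    · simp
    · rintro ⟨h1, h2⟩
      rw [Complex.norm_real, Real.norm_eq_abs, abs_of_pos (by positivity), hm2] at h1 h2
      apply hI
      constructor
      · by_contra hc
        push Not at hc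
        nlinarith
      · by_contra hc
        push Not at hc
        nlinarith

lemma cN_lim : Tendsto (fun m : ℕ => cN (2 * m)) atTop (𝓝 c0) := by
  have h1 : Tendsto (fun m : ℕ => ∫ ρ in Ioi (0:ℝ),
      ρ⁻¹ * (Ph (2 * m) ((((2 * m : ℕ) : ℝ) * ρ : ℝ) : ℂ)).re) atTop (𝓝 c0) := by
    rw [← tendsto_add_atTop_iff_nat 1]
    apply tendsto_integral_of_dominated_convergence dom
    · intro m
      apply Measurable.aestronglyMeasurable
      apply measurable_inv.mul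
      apply Complex.measurable_re.comp
      apply ((Ph_cont (N := 2 * (m + 1)) (by positivity)).measurable).comp
      exact Complex.measurable_ofReal.comp (measurable_const.mul measurable_id)
    · exact dom_int
    · intro m
      rw [ae_restrict_iff' measurableSet_Ioi]
      refine ae_of_all _ fun ρ hρ => ?_
      rw [Real.norm_eq_abs]
      exact dom_bound (Nat.succ_pos m) hρ
    · rw [ae_restrict_iff' measurableSet_Ioi]
      refine ae_of_all _ fun ρ hρ => ?_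
      exact ((Ph_lim hρ).const_mul ρ⁻¹).comp (tendsto_add_atTop_nat 1)
  refine h1.congr' ?_
  filter_upwards [eventually_gt_atTop 0] with m hm
  rw [cN_eq (by positivity)]

lemma c0_integrable : IntegrableOn (fun ρ => ρ⁻¹ * c0i ρ) (Ioi (0:ℝ)) := by
  have hlim : ∀ᵐ ρ ∂(volume.restrict (Ioi (0:ℝ))), Tendsto (fun m : ℕ =>
      ρ⁻¹ * (Ph (2 * (m + 1)) ((((2 * (m + 1) : ℕ) : ℝ) * ρ : ℝ) : ℂ)).re) atTop (𝓝 (ρ⁻¹ * c0i ρ)) := by
    rw [ae_restrict_iff' measurableSet_Ioi]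
    refine ae_of_all _ fun ρ hρ => ?_
    exact ((Ph_lim hρ).const_mul ρ⁻¹).comp (tendsto_add_atTop_nat 1)
  have hmeas : ∀ m : ℕ, AEStronglyMeasurable (fun ρ : ℝ =>
      ρ⁻¹ * (Ph (2 * (m + 1)) ((((2 * (m + 1) : ℕ) : ℝ) * ρ : ℝ) : ℂ)).re)
      (volume.restrict (Ioi (0:ℝ))) := by
    intro m
    apply Measurable.aestronglyMeasurable
    apply measurable_inv.mul
    apply Complex.measurable_re.comp
    apply ((Ph_cont (N := 2 * (m + 1)) (by positivity)).measurable).comp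
    exact Complex.measurable_ofReal.comp (measurable_const.mul measurable_id)
  refine Integrable.mono' dom_int (aestronglyMeasurable_of_tendsto_ae _ hmeas hlim) ?_
  have hlim2 := hlim
  filter_upwards [hlim2, ae_restrict_mem measurableSet_Ioi] with ρ h1 hρ
  refine le_of_tendsto (h1.norm) (Eventually.of_forall fun m => ?_)
  rw [Real.norm_eq_abs]
  exact dom_bound (Nat.succ_pos m) hρ

lemma cos_lt_aux {ρ : ℝ} (hρ : 1 < ρ) {x : ℂ} (hx : ‖x‖ < 1) (hx0 : x.im ≠ 0) :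
    Real.cos (x.im / ρ) < Real.cos ((cc • x).im / ρ) := by
  have h0 : (0:ℝ) < ρ := by linarith
  have h1 : |x.im| < 1 := (Complex.abs_im_le_norm x).trans_lt hx
  have hccp := cc_pos
  have hccl := cc_lt_one
  have hi : 0 < |x.im| := abs_pos.2 hx0
  rw [← Real.cos_abs (x.im / ρ), ← Real.cos_abs ((cc • x).im / ρ), Complex.smul_im, smul_eq_mul,
    abs_div, abs_div, abs_mul, abs_of_pos h0, abs_of_pos hccp]
  apply Real.cos_lt_cos_of_nonneg_of_le_pi
  · positivity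
  · have : |x.im| / ρ ≤ 1 := by
      rw [div_le_one h0]; linarith
    linarith [Real.pi_gt_three]
  · apply div_lt_div_of_pos_right _ h0
    nlinarith

lemma cos_le_aux {ρ : ℝ} (hρ : 1 < ρ) {x : ℂ} (hx : ‖x‖ < 1) :
    Real.cos (x.im / ρ) ≤ Real.cos ((cc • x).im / ρ) := by
  by_cases hx0 : x.im = 0
  · rw [Complex.smul_im, hx0]; simp
  · exact (cos_lt_aux hρ hx hx0).le

lemma c0i_nonneg (ρ : ℝ) : 0 ≤ c0i ρ := by
  unfold c0i
  by_cases hρ : 1 < ρ ∧ ρ < 2
  · apply setIntegral_nonneg measurableSet_ball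
    intro x hx
    rw [mem_ball_zero_iff] at hx
    have := cos_le_aux hρ.1 hx
    have := ph_nonneg ρ
    nlinarith
  · rw [ph_zero hρ]; simp

lemma c0i_pos {ρ : ℝ} (h1 : 1 < ρ) (h2 : ρ < 2) : 0 < c0i ρ := by
  unfold c0i
  have hph := ph_pos h1 h2
  rw [setIntegral_pos_iff_support_of_nonneg_ae]
  · -- the set has positive measure
    have hU : IsOpen {x : ℂ | 0 < x.im ∧ ‖x‖ < 1} :=
      (isOpen_lt continuous_const Complex.continuous_im).inter
        (isOpen_lt continuous_norm continuous_const)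
    have hne : {x : ℂ | 0 < x.im ∧ ‖x‖ < 1}.Nonempty := by
      refine ⟨(1/2 : ℝ) * Complex.I, ?_, ?_⟩
      · simp
      · rw [norm_mul, Complex.norm_I, Complex.norm_real]; norm_num
    refine lt_of_lt_of_le (hU.measure_pos volume hne) (measure_mono ?_)
    rintro x ⟨hx1, hx2⟩
    refine ⟨?_, by rwa [mem_ball_zero_iff]⟩
    rw [Function.mem_support]
    have := cos_lt_aux h1 hx2 hx1.ne'
    apply ne_of_gt
    nlinarith
  · rw [Filter.EventuallyLE, ae_restrict_iff' measurableSet_ball]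
    refine ae_of_all _ fun x hx => ?_
    rw [mem_ball_zero_iff] at hx
    have := cos_le_aux h1 hx
    show 0 ≤ _
    nlinarith
  · apply Measure.integrableOn_of_bounded (M := 2 * |ph ρ|) measure_ball_lt_top.ne
    · apply Continuous.aestronglyMeasurable
      have : ρ ≠ 0 := by linarith
      fun_prop
    · refine ae_of_all _ fun x => ?_
      rw [Real.norm_eq_abs, ← mul_sub, abs_mul]
      have h3 := Real.abs_cos_le_one ((cc • x).im / ρ)
      have h4 := Real.abs_cos_le_one (x.im / ρ)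
      have h5 := abs_sub (Real.cos ((cc • x).im / ρ)) (Real.cos (x.im / ρ))
      have h6 := abs_nonneg (ph ρ)
      nlinarith

lemma c0_pos : 0 < c0 := by
  unfold c0
  rw [setIntegral_pos_iff_support_of_nonneg_ae]
  · have h1 : (0 : ENNReal) < volume (Ioo (1:ℝ) 2) := by simp
    refine lt_of_lt_of_le h1 (measure_mono ?_)
    intro ρ hρ
    refine ⟨?_, lt_trans one_pos hρ.1⟩
    rw [Function.mem_support]
    have := c0i_pos hρ.1 hρ.2
    have h0 : (0:ℝ) < ρ⁻¹ := inv_pos.2 (lt_trans one_pos hρ.1)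
    positivity
  · rw [Filter.EventuallyLE, ae_restrict_iff' measurableSet_Ioi]
    refine ae_of_all _ fun ρ hρ => ?_
    have h0 : (0:ℝ) < ρ⁻¹ := inv_pos.2 hρ
    exact mul_nonneg h0.le (c0i_nonneg ρ)
  · exact c0_integrable

/-- there is a threshold past which the constants are bounded below -/
lemma exists_threshold : ∃ m₀ : ℕ, 1 ≤ m₀ ∧ ∀ m, m₀ ≤ m → c0 / 2 ≤ cN (2 * m) := by
  have h := cN_lim.eventually (lt_mem_nhds (half_lt_self c0_pos))
  obtain ⟨m₀, hm⟩ := eventually_atTop.1 h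
  exact ⟨max 1 m₀, le_max_left _ _, fun m hm' => (hm m ((le_max_right _ _).trans hm')).le⟩

end Pool.Agent.X153.Riv
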