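import Pool.Agent.X153.Riv.Wfun

set_option autoImplicit false
open MeasureTheory Set Filter Topology Real
open scoped ENNReal

namespace Pool.Agent.X153.Riv

lemma target_eq : (polarCoord.target : Set (ℝ × ℝ)) = Ioi (0:ℝ) ×ˢ Ioo (-π) π := rfl

lemma symm_norm {p : ℝ × ℝ} (hp : p ∈ Ioi (0:ℝ) ×ˢ Ioo (-π) π) : ‖Complex.polarCoord.symm p‖ = p.1 := by
  rw [Complex.norm_polarCoord_symm]
  exact abs_of_pos hp.1

lemma symm_arg {p : ℝ × ℝ} (hp : p ∈ Ioi (0:ℝ) ×ˢ Ioo (-π) π) :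
    Complex.arg (Complex.polarCoord.symm p) = p.2 := by
  rw [Complex.polarCoord_symm_apply, Complex.ofReal_cos, Complex.ofReal_sin]
  exact Complex.arg_mul_cos_add_sin_mul_I hp.1 ⟨hp.2.1, hp.2.2.le⟩

/-- product functions in polar coordinates -/
theorem polar_prod {ρ A : ℝ → ℝ} (hρ : Measurable ρ) (hA : Measurable A)
    (h1 : IntegrableOn (fun r => r * ρ r) (Ioi 0)) (h2 : IntegrableOn A (Ioo (-π) π)) :
    Integrable (fun z : ℂ => ρ ‖z‖ * A (Complex.arg z)) ∧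
    ∫ z : ℂ, ρ ‖z‖ * A (Complex.arg z) = (∫ r in Ioi 0, r * ρ r) * ∫ θ in Ioo (-π) π, A θ := by
  have hres : (volume : Measure (ℝ × ℝ)).restrict (Ioi (0:ℝ) ×ˢ Ioo (-π) π) =
      (volume.restrict (Ioi (0:ℝ))).prod (volume.restrict (Ioo (-π) π)) := by
    rw [Measure.prod_restrict]; rfl
  have hint : IntegrableOn (fun p : ℝ × ℝ => (p.1 * ρ p.1) * A p.2) (Ioi (0:ℝ) ×ˢ Ioo (-π) π) := by
    rw [IntegrableOn, hres]
    exact h1.mul_prod h2
  have hms : MeasurableSet (Ioi (0:ℝ) ×ˢ Ioo (-π) π) := measurableSet_Ioi.prod measurableSet_Ioo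
  have hfm : Measurable (fun z : ℂ => ρ ‖z‖ * A (Complex.arg z)) :=
    (hρ.comp measurable_norm).mul (hA.comp Complex.measurable_arg)
  constructor
  · refine ⟨hfm.aestronglyMeasurable, ?_⟩
    rw [HasFiniteIntegral, ← Complex.lintegral_comp_polarCoord_symm, target_eq]
    have h3 : ∫⁻ p in Ioi (0:ℝ) ×ˢ Ioo (-π) π, ENNReal.ofReal p.1 •
        ‖ρ ‖Complex.polarCoord.symm p‖ * A (Complex.arg (Complex.polarCoord.symm p))‖ₑ =
        ∫⁻ p in Ioi (0:ℝ) ×ˢ Ioo (-π) π, ‖(p.1 * ρ p.1) * A p.2‖ₑ := by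
      apply setLIntegral_congr_fun hms
      intro p hp
      simp only
      rw [symm_norm hp, symm_arg hp, smul_eq_mul, mul_assoc, enorm_mul p.1,
        Real.enorm_of_nonneg (le_of_lt hp.1)]
    rw [h3]
    exact hint.2
  · rw [← Complex.integral_comp_polarCoord_symm, target_eq]
    have h3 : ∫ p in Ioi (0:ℝ) ×ˢ Ioo (-π) π, p.1 •
        (ρ ‖Complex.polarCoord.symm p‖ * A (Complex.arg (Complex.polarCoord.symm p))) =
        ∫ p in Ioi (0:ℝ) ×ˢ Ioo (-π) π, (p.1 * ρ p.1) * A p.2 := by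
      apply setIntegral_congr_fun hms
      intro p hp
      simp only
      rw [symm_norm hp, symm_arg hp, smul_eq_mul, mul_assoc]
    rw [h3, hres]
    exact integral_prod_mul (fun r => r * ρ r) A

/-- the kernel -/
noncomputable def kk (W : ℝ → ℝ) (z : ℂ) : ℝ := (‖z‖ ^ 2)⁻¹ * W (Complex.arg z)

lemma kk_meas {W : ℝ → ℝ} (hW : Measurable W) : Measurable (kk W) :=
  ((measurable_norm.pow_const 2).inv).mul (hW.comp Complex.measurable_arg)

lemma kk_homog (W : ℝ → ℝ) (z : ℂ) (t : ℝ) (ht : 0 < t) : kk W (t • z) = t ^ (-(2:ℤ)) * kk W z := by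
  unfold kk
  rw [norm_smul, Real.norm_eq_abs, abs_of_pos ht, Complex.real_smul, Complex.arg_real_mul _ ht,
    zpow_neg, mul_pow, mul_inv]
  have : t ^ (2:ℤ) = t ^ 2 := by norm_cast
  rw [this]
  ring

/-- integrability of the kernel times a radial function -/
lemma kk_radial {W : ℝ → ℝ} (hW : Measurable W) (hWI : IntegrableOn W (Ioo (-π) π)) {b : ℝ → ℝ}
    (hb : Measurable b) (h1 : IntegrableOn (fun r => r⁻¹ * b r) (Ioi 0)) :
    Integrable (fun z : ℂ => b ‖z‖ * kk W z) ∧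
    ∫ z : ℂ, b ‖z‖ * kk W z = (∫ r in Ioi 0, r⁻¹ * b r) * ∫ θ in Ioo (-π) π, W θ := by
  have h2 : IntegrableOn (fun r => r * (b r * (r ^ 2)⁻¹)) (Ioi 0) := by
    refine h1.congr_fun (fun r hr => ?_) measurableSet_Ioi
    have : r ≠ 0 := ne_of_gt hr
    simp only
    field_simp
  have h3 := polar_prod (ρ := fun r => b r * (r ^ 2)⁻¹) (by fun_prop) hW h2 hWI
  have e : (fun z : ℂ => b ‖z‖ * kk W z) = fun z : ℂ => b ‖z‖ * (‖z‖ ^ 2)⁻¹ * W (Complex.arg z) := by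
    ext z
    unfold kk
    ring
  rw [e]
  refine ⟨h3.1, ?_⟩
  rw [h3.2]
  congr 1
  apply setIntegral_congr_fun measurableSet_Ioi
  intro r hr
  have : r ≠ 0 := ne_of_gt hr
  simp only
  field_simp

lemma rad_ind (a b : ℝ) (ha : 0 < a) :
    IntegrableOn (fun r : ℝ => r⁻¹ * (Icc a b).indicator 1 r) (Ioi 0) := by
  have h1 : (fun r : ℝ => r⁻¹ * (Icc a b).indicator 1 r) = (Icc a b).indicator (fun r => r⁻¹) := by
    ext r
    by_cases hr : r ∈ Icc a b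
    · rw [indicator_of_mem hr, indicator_of_mem hr]; simp
    · rw [indicator_of_notMem hr, indicator_of_notMem hr]; simp
  rw [h1]
  apply Integrable.integrableOn
  rw [integrable_indicator_iff measurableSet_Icc]
  apply ContinuousOn.integrableOn_Icc
  apply ContinuousOn.inv₀ continuousOn_id
  intro x hx
  exact (lt_of_lt_of_le ha hx.1).ne'

/-- the kernel is integrable on annuli with mean zero -/
lemma kk_annulus {W : ℝ → ℝ} (hW : Measurable W) (hWI : IntegrableOn W (Ioo (-π) π))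
    (hW0 : ∫ θ in Ioo (-π) π, W θ = 0) {a b : ℝ} (ha : 0 < a) :
    IntegrableOn (kk W) {z : ℂ | a ≤ ‖z‖ ∧ ‖z‖ ≤ b} ∧
    ∫ z in {z : ℂ | a ≤ ‖z‖ ∧ ‖z‖ ≤ b}, kk W z = 0 := by
  have hS : MeasurableSet {z : ℂ | a ≤ ‖z‖ ∧ ‖z‖ ≤ b} :=
    (measurableSet_le measurable_const measurable_norm).inter
      (measurableSet_le measurable_norm measurable_const)
  have h1 := kk_radial hW hWI (b := (Icc a b).indicator 1)
    (measurable_one.indicator measurableSet_Icc) (rad_ind a b ha)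
  have e : (fun z : ℂ => (Icc a b).indicator 1 ‖z‖ * kk W z) =
      {z : ℂ | a ≤ ‖z‖ ∧ ‖z‖ ≤ b}.indicator (kk W) := by
    ext z
    by_cases hz : z ∈ {z : ℂ | a ≤ ‖z‖ ∧ ‖z‖ ≤ b}
    · rw [indicator_of_mem hz, indicator_of_mem (show ‖z‖ ∈ Icc a b from hz)]; simp
    · rw [indicator_of_notMem hz, indicator_of_notMem (show ‖z‖ ∉ Icc a b from hz)]; simp
  rw [e] at h1
  refine ⟨(integrable_indicator_iff hS).1 h1.1, ?_⟩
  rw [← integral_indicator hS, h1.2, hW0, mul_zero]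

/-- the logarithmic condition -/
lemma kk_llogl {W : ℝ → ℝ} (hW : Measurable W)
    (hW2 : IntegrableOn (fun θ => W θ ^ 2) (Ioo (-π) π)) :
    IntegrableOn (fun z : ℂ => |kk W z| * max 0 (Real.log |kk W z|))
      {z : ℂ | 1 ≤ ‖z‖ ∧ ‖z‖ ≤ 2} := by
  have hS : MeasurableSet {z : ℂ | 1 ≤ ‖z‖ ∧ ‖z‖ ≤ 2} :=
    (measurableSet_le measurable_const measurable_norm).inter
      (measurableSet_le measurable_norm measurable_const)
  have h1 := (kk_radial (W := fun θ => W θ ^ 2) (hW.pow_const 2) hW2 (b := (Icc (1:ℝ) 2).indicator 1)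
    (measurable_one.indicator measurableSet_Icc) (rad_ind 1 2 one_pos)).1
  have h2 : IntegrableOn (kk (fun θ => W θ ^ 2)) {z : ℂ | 1 ≤ ‖z‖ ∧ ‖z‖ ≤ 2} := by
    rw [← integrable_indicator_iff hS]
    refine h1.congr (ae_of_all _ fun z => ?_)
    show (Icc (1:ℝ) 2).indicator 1 ‖z‖ * kk (fun θ => W θ ^ 2) z = _
    by_cases hz : z ∈ {z : ℂ | 1 ≤ ‖z‖ ∧ ‖z‖ ≤ 2}
    · rw [indicator_of_mem hz, indicator_of_mem (show ‖z‖ ∈ Icc (1:ℝ) 2 from hz)]; simp
    · rw [indicator_of_notMem hz, indicator_of_notMem (show ‖z‖ ∉ Icc (1:ℝ) 2 from hz)]; simp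
  have hkm := kk_meas hW
  refine Integrable.mono' h2 ?_ ?_
  · have : Measurable (fun z : ℂ => |kk W z| * max 0 (Real.log |kk W z|)) :=
      hkm.abs.mul (measurable_const.max (Real.measurable_log.comp hkm.abs))
    exact this.aestronglyMeasurable
  · rw [ae_restrict_iff' hS]
    refine ae_of_all _ fun z hz => ?_
    obtain ⟨hz1, -⟩ := hz
    rw [Real.norm_eq_abs, abs_mul, abs_abs,
      abs_of_nonneg (le_max_left 0 (Real.log |kk W z|))]
    have h3 : max 0 (Real.log |kk W z|) ≤ |kk W z| := by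
      apply max_le (abs_nonneg _)
      exact Real.log_le_self (abs_nonneg _)
    have h4 : |kk W z| * max 0 (Real.log |kk W z|) ≤ |kk W z| * |kk W z| :=
      mul_le_mul_of_nonneg_left h3 (abs_nonneg _)
    refine h4.trans ?_
    rw [abs_mul_abs_self]
    unfold kk
    have h5 : (‖z‖ ^ 2)⁻¹ ≤ 1 := inv_le_one_of_one_le₀ (one_le_pow₀ hz1)
    have h6 : 0 ≤ (‖z‖ ^ 2)⁻¹ := by positivity
    have h7 : (‖z‖ ^ 2)⁻¹ * (‖z‖ ^ 2)⁻¹ ≤ (‖z‖ ^ 2)⁻¹ := by nlinarith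
    calc (‖z‖ ^ 2)⁻¹ * W (Complex.arg z) * ((‖z‖ ^ 2)⁻¹ * W (Complex.arg z)) =
          ((‖z‖ ^ 2)⁻¹ * (‖z‖ ^ 2)⁻¹) * W (Complex.arg z) ^ 2 := by ring
      _ ≤ (‖z‖ ^ 2)⁻¹ * W (Complex.arg z) ^ 2 := mul_le_mul_of_nonneg_right h7 (sq_nonneg _)

/-- the kernel times the norm is integrable near the origin -/
lemma kk_norm_ball {W : ℝ → ℝ} (hW : Measurable W) (hWI : IntegrableOn W (Ioo (-π) π)) :
    IntegrableOn (fun z : ℂ => ‖z‖ * |kk W z|) {z : ℂ | ‖z‖ ≤ 1} := by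
  have hS : MeasurableSet {z : ℂ | ‖z‖ ≤ 1} := measurableSet_le measurable_norm measurable_const
  have h0 : IntegrableOn (fun r : ℝ => r⁻¹ * (r * (Iic (1:ℝ)).indicator 1 r)) (Ioi 0) := by
    have h1 : IntegrableOn ((Iic (1:ℝ)).indicator (1 : ℝ → ℝ)) (Ioi 0) := by
      rw [IntegrableOn, integrable_indicator_iff measurableSet_Iic, IntegrableOn,
        Measure.restrict_restrict measurableSet_Iic, inter_comm, Ioi_inter_Iic]
      exact integrableOn_const measure_Ioc_lt_top.ne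
    refine h1.congr_fun (fun r hr => ?_) measurableSet_Ioi
    have : r ≠ 0 := ne_of_gt hr
    rw [← mul_assoc, inv_mul_cancel₀ this, one_mul]
  have h1 := (kk_radial hW.abs hWI.abs (b := fun r => r * (Iic (1:ℝ)).indicator 1 r)
    (measurable_id.mul (measurable_one.indicator measurableSet_Iic)) h0).1
  rw [← integrable_indicator_iff hS]
  refine h1.congr (ae_of_all _ fun z => ?_)
  show ‖z‖ * (Iic (1:ℝ)).indicator 1 ‖z‖ * kk (fun θ => |W θ|) z = _
  have e : kk (fun θ => |W θ|) z = |kk W z| := by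
    unfold kk
    rw [abs_mul, abs_of_nonneg (by positivity : 0 ≤ (‖z‖ ^ 2)⁻¹)]
  rw [e]
  by_cases hz : z ∈ {z : ℂ | ‖z‖ ≤ 1}
  · rw [indicator_of_mem hz, indicator_of_mem (show ‖z‖ ∈ Iic (1:ℝ) from hz)]; simp
  · rw [indicator_of_notMem hz, indicator_of_notMem (show ‖z‖ ∉ Iic (1:ℝ) from hz)]; simp

end Pool.Agent.X153.Riv
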