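import Pool.Agent.X153.Riv.Pair

set_option autoImplicit false
open MeasureTheory Set Filter Topology Real Metric
open scoped Pointwise

namespace Pool.Agent.X153.Riv

/-- frequencies -/
def Nk (m₀ k : ℕ) : ℕ := 2 * (m₀ * 4 ^ k)

lemma Nk_two {m₀ : ℕ} (h : 1 ≤ m₀) (k : ℕ) : 2 ≤ Nk m₀ k := by
  unfold Nk
  have : 1 ≤ 4 ^ k := Nat.one_le_pow _ _ (by norm_num)
  nlinarith

lemma Nk_lt {m₀ : ℕ} (h : 1 ≤ m₀) {j k : ℕ} (hjk : j < k) : 2 * Nk m₀ j ≤ Nk m₀ k := by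
  unfold Nk
  have h1 : 4 ^ (j + 1) ≤ 4 ^ k := Nat.pow_le_pow_right (by norm_num) hjk
  have h2 : m₀ * (4 ^ (j + 1)) ≤ m₀ * 4 ^ k := Nat.mul_le_mul_left _ h1
  rw [pow_succ] at h2
  have h3 : 0 ≤ m₀ * 4 ^ j := Nat.zero_le _
  nlinarith

lemma Nk_inj {m₀ : ℕ} (h : 1 ≤ m₀) : Function.Injective (Nk m₀) := by
  apply StrictMono.injective
  apply strictMono_nat_of_lt_succ
  intro n
  have h1 := Nk_lt h (show n < n + 1 by omega)
  have h2 := Nk_two h n
  omega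

noncomputable def fK (m₀ K : ℕ) (z : ℂ) : ℝ := ∑ k ∈ Finset.range K, (FF (Nk m₀ k) z).re

lemma FF_re_abs (N : ℕ) (z : ℂ) : |(FF N z).re| ≤ 1 :=
  (Complex.abs_re_le_norm _).trans (FF_norm N z)

lemma fK_abs {m₀ : ℕ} (h : 1 ≤ m₀) (K : ℕ) (z : ℂ) : |fK m₀ K z| ≤ 1 := by
  unfold fK
  by_cases hz : ∃ k ∈ Finset.range K, ((Nk m₀ k : ℕ):ℝ) < ‖z‖ ∧ ‖z‖ < 2 * (Nk m₀ k : ℕ)
  · obtain ⟨k, hk, h1, h2⟩ := hz
    rw [Finset.sum_eq_single_of_mem k hk]
    · exact FF_re_abs _ _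
    · intro j _ hjk
      rw [FF_zero (by have := Nk_two h j; omega)]
      · simp
      · rintro ⟨h3, h4⟩
        rcases lt_or_gt_of_ne hjk with hlt | hgt
        · have h5 : (2:ℝ) * (Nk m₀ j : ℕ) ≤ (Nk m₀ k : ℕ) := by exact_mod_cast Nk_lt h hlt
          linarith
        · have h5 : (2:ℝ) * (Nk m₀ k : ℕ) ≤ (Nk m₀ j : ℕ) := by exact_mod_cast Nk_lt h hgt
          linarith
  · push Not at hz
    rw [Finset.sum_eq_zero]
    · simp
    · intro k hk
      rw [FF_zero (by have := Nk_two h k; omega)]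
      · simp
      · rintro ⟨h3, h4⟩
        exact absurd h4 (not_lt.2 (hz k hk h3))

lemma fK_smooth {m₀ : ℕ} (h : 1 ≤ m₀) (K : ℕ) : ContDiff ℝ 1 (fK m₀ K) := by
  unfold fK
  apply ContDiff.sum
  intro k _
  exact Complex.reCLM.contDiff.comp (FF_smooth (by have := Nk_two h k; omega))

lemma fK_in {m₀ : ℕ} (h : 1 ≤ m₀) (K : ℕ) {z : ℂ} (hz : ‖z‖ ≤ 2) : fK m₀ K z = 0 := by
  unfold fK
  apply Finset.sum_eq_zero
  intro k _
  rw [FF_zero (by have := Nk_two h k; omega)]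
  · simp
  · rintro ⟨h3, -⟩
    have : (2:ℝ) ≤ (Nk m₀ k : ℕ) := by exact_mod_cast Nk_two h k
    linarith

lemma fK_out {m₀ : ℕ} (h : 1 ≤ m₀) (K : ℕ) {z : ℂ} (hz : (Nk m₀ K : ℝ) < ‖z‖) : fK m₀ K z = 0 := by
  unfold fK
  apply Finset.sum_eq_zero
  intro k hk
  rw [FF_zero (by have := Nk_two h k; omega)]
  · simp
  · rintro ⟨-, h3⟩
    have : (2:ℝ) * (Nk m₀ k : ℕ) ≤ (Nk m₀ K : ℕ) := by exact_mod_cast Nk_lt h (Finset.mem_range.1 hk)
    linarith

lemma fK_cs {m₀ : ℕ} (h : 1 ≤ m₀) (K : ℕ) : HasCompactSupport (fK m₀ K) := by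
  apply HasCompactSupport.of_support_subset_isCompact (isCompact_closedBall (0:ℂ) (Nk m₀ K))
  intro z hz
  rw [mem_closedBall_zero_iff]
  by_contra hc
  exact hz (fK_out h K (not_le.1 hc))

lemma fK_lip {m₀ : ℕ} (h : 1 ≤ m₀) (K : ℕ) : ∃ L : ℝ, ∀ z w, |fK m₀ K z - fK m₀ K w| ≤ L * ‖z - w‖ := by
  obtain ⟨C, hC⟩ := ContDiff.lipschitzWith_of_hasCompactSupport (fK_cs h K) (fK_smooth h K) (by norm_num)
  refine ⟨C, fun z w => ?_⟩
  have := hC.dist_le_mul z w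
  rwa [Real.dist_eq, dist_eq_norm] at this

/-- near the origin the singular integral is an honest integral -/
lemma GG_in {m₀ : ℕ} (h : 1 ≤ m₀) (K : ℕ) (W : ℝ → ℝ) {x : ℂ} (hx : ‖x‖ < 1) :
    GG W (fK m₀ K) x = ∫ y : ℂ, kk W y * fK m₀ K (x - y) := by
  unfold GG
  have h1 : ∀ y : ℂ, ‖y‖ ≤ 1 → fK m₀ K (x - y) = 0 := by
    intro y hy
    apply fK_in h
    have := norm_sub_le x y
    linarith
  rw [setIntegral_eq_zero_of_forall_eq_zero, zero_add]
  · apply setIntegral_eq_integral_of_forall_compl_eq_zero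
    intro y hy
    rw [h1 y (not_lt.1 hy), mul_zero]
  · intro y hy
    rw [h1 y hy, fK_in h K (by linarith), sub_zero, mul_zero]

/-- integrability on the product -/
lemma prod_int {m₀ : ℕ} (h : 1 ≤ m₀) (K : ℕ) {W : ℝ → ℝ} (hW : Measurable W)
    (hWI : IntegrableOn W (Ioo (-π) π)) (hW0 : ∫ θ in Ioo (-π) π, W θ = 0) {c : ℝ}
    (hc0 : 0 < c) (hc : c ≤ 1) :
    Integrable (fun p : ℂ × ℂ => kk W p.2 * fK m₀ K (c • p.1 - p.2))
      ((volume.restrict (ball (0:ℂ) 1)).prod volume) := by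
  have hkm := kk_meas hW
  have hfc := (fK_smooth h K).continuous
  set S := {y : ℂ | 1 ≤ ‖y‖ ∧ ‖y‖ ≤ Nk m₀ K + 1} with hS
  have hk : Integrable (S.indicator (kk W)) :=
    (integrable_indicator_iff (ms_cc _ _)).2 (kk_annulus hW hWI hW0 one_pos).1
  have hdom : Integrable (fun p : ℂ × ℂ => (1:ℝ) * |S.indicator (kk W) p.2|)
      ((volume.restrict (ball (0:ℂ) 1)).prod volume) :=
    (integrable_const (1:ℝ)).mul_prod hk.abs
  refine Integrable.mono' hdom ?_ ?_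
  · apply Measurable.aestronglyMeasurable
    exact (hkm.comp measurable_snd).mul (hfc.measurable.comp
      ((measurable_fst.const_smul c).sub measurable_snd))
  · have hae : ∀ᵐ p : ℂ × ℂ ∂((volume.restrict (ball (0:ℂ) 1)).prod volume), p.1 ∈ ball (0:ℂ) 1 := by
      have h1 : ∀ᵐ x : ℂ ∂(volume.restrict (ball (0:ℂ) 1)), x ∈ ball (0:ℂ) 1 :=
        ae_restrict_mem measurableSet_ball
      exact Measure.quasiMeasurePreserving_fst.ae h1
    filter_upwards [hae] with p hp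
    rw [mem_ball_zero_iff] at hp
    have hcp : ‖c • p.1‖ < 1 := by
      rw [norm_smul, Real.norm_eq_abs, abs_of_pos hc0]
      nlinarith [norm_nonneg p.1]
    rw [one_mul, norm_mul, Real.norm_eq_abs, Real.norm_eq_abs]
    by_cases hS' : p.2 ∈ S
    · rw [indicator_of_mem hS']
      have := fK_abs h K (c • p.1 - p.2)
      calc |kk W p.2| * |fK m₀ K (c • p.1 - p.2)| ≤ |kk W p.2| * 1 :=
            mul_le_mul_of_nonneg_left this (abs_nonneg _)
        _ = _ := mul_one _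
    · have h0 : fK m₀ K (c • p.1 - p.2) = 0 := by
        by_cases h1 : 1 ≤ ‖p.2‖
        · have h2 : (Nk m₀ K : ℝ) + 1 < ‖p.2‖ := by
            by_contra hcc
            exact hS' ⟨h1, not_lt.1 hcc⟩
          apply fK_out h
          have := norm_sub_norm_le p.2 (c • p.1)
          rw [norm_sub_rev] at this
          linarith
        · apply fK_in h
          have := norm_sub_le (c • p.1) p.2
          push Not at h1
          linarith
      rw [h0, abs_zero, mul_zero]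
      exact abs_nonneg _

lemma Ph_sum {m₀ : ℕ} (h : 1 ≤ m₀) (K : ℕ) (y : ℂ) :
    ∫ x in ball (0:ℂ) 1, (fK m₀ K (cc • x - y) - fK m₀ K (x - y)) =
      ∑ k ∈ Finset.range K, (Ph (Nk m₀ k) y).re := by
  have e : (fun x : ℂ => fK m₀ K (cc • x - y) - fK m₀ K (x - y)) = fun x =>
      ∑ k ∈ Finset.range K, ((FF (Nk m₀ k) (cc • x - y)).re - (FF (Nk m₀ k) (x - y)).re) := by
    ext x
    unfold fK
    rw [Finset.sum_sub_distrib]
  rw [e, integral_finsetSum]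
  · apply Finset.sum_congr rfl
    intro k _
    rw [Ph_re (by have := Nk_two h k; omega)]
  · intro k _
    have := (Ph_integrand_int (N := Nk m₀ k) (by have := Nk_two h k; omega) y).re
    exact this

/-- the key identity -/
theorem key {m₀ : ℕ} (h : 1 ≤ m₀) (K : ℕ) {W : ℝ → ℝ} (hW : Measurable W)
    (hWI : IntegrableOn W (Ioo (-π) π)) (hW0 : ∫ θ in Ioo (-π) π, W θ = 0)
    (hcos : ∀ k, ∫ θ in Ioo (-π) π, W θ * Real.cos (Nk m₀ k * θ) = 2 * π / (k + 1))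
    (hsin : ∀ k, ∫ θ in Ioo (-π) π, W θ * Real.sin (Nk m₀ k * θ) = 0) :
    ∫ x in ball (0:ℂ) 1, (GG W (fK m₀ K) (cc • x) - GG W (fK m₀ K) x) =
      ∑ k ∈ Finset.range K, cN (Nk m₀ k) * (2 * π / (k + 1)) := by
  have hp1 := prod_int h K hW hWI hW0 cc_pos cc_lt_one.le
  have hp2 := prod_int h K hW hWI hW0 one_pos le_rfl
  simp only [one_smul] at hp2
  have hp := hp1.sub hp2
  have hsec : ∀ᵐ x : ℂ ∂(volume.restrict (ball (0:ℂ) 1)),
      GG W (fK m₀ K) (cc • x) - GG W (fK m₀ K) x =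
      ∫ y : ℂ, (kk W y * fK m₀ K (cc • x - y) - kk W y * fK m₀ K (x - y)) := by
    filter_upwards [ae_restrict_mem measurableSet_ball, hp1.prod_right_ae, hp2.prod_right_ae]
      with x hx h1 h2
    rw [mem_ball_zero_iff] at hx
    have hcx : ‖cc • x‖ < 1 := by
      rw [norm_smul, Real.norm_eq_abs, abs_of_pos cc_pos]
      have := cc_lt_one
      have := cc_pos
      nlinarith [norm_nonneg x]
    rw [GG_in h K W hx, GG_in h K W hcx, integral_sub h1 h2]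
  rw [integral_congr_ae hsec]
  rw [integral_integral_swap (f := fun (x y : ℂ) =>
    kk W y * fK m₀ K (cc • x - y) - kk W y * fK m₀ K (x - y)) hp]
  have e : ∀ y : ℂ, ∫ x in ball (0:ℂ) 1, (kk W y * fK m₀ K (cc • x - y) - kk W y * fK m₀ K (x - y)) =
      ∑ k ∈ Finset.range K, kk W y * (Ph (Nk m₀ k) y).re := by
    intro y
    rw [← Finset.mul_sum, ← Ph_sum h K y, ← integral_const_mul]
    congr 1
    ext x
    ring
  simp only [e]
  rw [integral_finsetSum]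
  · apply Finset.sum_congr rfl
    intro k _
    exact (pairing hW hWI (Nk_two h k) (hcos k) (hsin k)).2
  · intro k _
    exact (pairing hW hWI (Nk_two h k) (hcos k) (hsin k)).1

/-- the mean oscillation controls the difference -/
lemma osc {g : ℂ → ℝ} (hg : IntegrableOn g (ball (0:ℂ) 1)) :
    ∫ x in ball (0:ℂ) 1, (g (cc • x) - g x) ≤
      3 * π * ⨍ x in ball (0:ℂ) 1, |g x - ⨍ y in ball (0:ℂ) 1, g y| := by
  set m := ⨍ y in ball (0:ℂ) 1, g y with hm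
  have hsub : ball (0:ℂ) cc ⊆ ball (0:ℂ) 1 := ball_subset_ball cc_lt_one.le
  have hgc : IntegrableOn g (ball (0:ℂ) cc) := hg.mono_set hsub
  have hsm : cc • ball (0:ℂ) 1 = ball (0:ℂ) cc := by
    rw [smul_unitBall_of_pos cc_pos]
  have hchg : ∀ u : ℂ → ℝ, ∫ x in ball (0:ℂ) 1, u (cc • x) = 2 * ∫ x in ball (0:ℂ) cc, u x := by
    intro u
    rw [Measure.setIntegral_comp_smul_of_pos volume u (ball (0:ℂ) 1) cc_pos, hsm,
      Complex.finrank_real_complex, cc_sq, smul_eq_mul]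
    norm_num
  have hgs : IntegrableOn (fun x => g (cc • x)) (ball (0:ℂ) 1) := by
    have h1 : Integrable ((ball (0:ℂ) cc).indicator g) :=
      (integrable_indicator_iff measurableSet_ball).2 hgc
    have h2 := h1.comp_smul (R := cc) cc_pos.ne'
    rw [← integrable_indicator_iff measurableSet_ball]
    refine h2.congr (ae_of_all _ fun x => ?_)
    have hiff : cc • x ∈ ball (0:ℂ) cc ↔ x ∈ ball (0:ℂ) 1 := by
      rw [mem_ball_zero_iff, mem_ball_zero_iff, norm_smul, Real.norm_eq_abs, abs_of_pos cc_pos]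
      constructor
      · intro h
        by_contra hc
        push Not at hc
        have := cc_pos
        nlinarith
      · intro h
        have := cc_pos
        nlinarith
    show (ball (0:ℂ) cc).indicator g (cc • x) = _
    by_cases hx : x ∈ ball (0:ℂ) 1
    · rw [indicator_of_mem hx, indicator_of_mem (hiff.2 hx)]
    · rw [indicator_of_notMem hx, indicator_of_notMem (fun h => hx (hiff.1 h))]
  have hci : ∀ r : ℝ, IntegrableOn (fun _ : ℂ => m) (ball (0:ℂ) r) := fun r =>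
    integrableOn_const measure_ball_lt_top.ne
  have hA : IntegrableOn (fun x => |g x - m|) (ball (0:ℂ) 1) := (hg.sub (hci 1)).abs
  have e1 : ∫ x in ball (0:ℂ) 1, (g (cc • x) - g x) =
      ∫ x in ball (0:ℂ) 1, ((g (cc • x) - m) - (g x - m)) := by
    congr 1
    ext x
    ring
  have i1 : IntegrableOn (fun x => g (cc • x) - m) (ball (0:ℂ) 1) := hgs.sub (hci 1)
  have i2 : IntegrableOn (fun x => g x - m) (ball (0:ℂ) 1) := hg.sub (hci 1)
  rw [e1, integral_sub i1 i2, hchg (fun x => g x - m)]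
  have b1 : ∫ x in ball (0:ℂ) cc, (g x - m) ≤ ∫ x in ball (0:ℂ) 1, |g x - m| := by
    calc ∫ x in ball (0:ℂ) cc, (g x - m) ≤ ∫ x in ball (0:ℂ) cc, |g x - m| :=
          integral_mono (hgc.sub (hci cc)) (hA.mono_set hsub) (fun x => le_abs_self _)
      _ ≤ ∫ x in ball (0:ℂ) 1, |g x - m| :=
          setIntegral_mono_set hA (ae_of_all _ fun x => abs_nonneg _) (ae_of_all _ hsub)
  have b2 : -∫ x in ball (0:ℂ) 1, (g x - m) ≤ ∫ x in ball (0:ℂ) 1, |g x - m| := by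
    rw [← integral_neg]
    exact integral_mono (hg.sub (hci 1)).neg hA (fun x => neg_le_abs _)
  have e2 : ∫ x in ball (0:ℂ) 1, |g x - m| = π * ⨍ x in ball (0:ℂ) 1, |g x - m| := by
    rw [setAverage_eq, vol_ball, smul_eq_mul]
    have := Real.pi_pos
    field_simp
  have e3 : 3 * π * ⨍ x in ball (0:ℂ) 1, |g x - m| = 3 * ∫ x in ball (0:ℂ) 1, |g x - m| := by
    rw [e2]; ring
  rw [e3]
  linarith

/-- the complex version -/
theorem complex_version : ∃ k : ℂ → ℝ, Measurable k ∧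
    (∀ (z : ℂ) (t : ℝ), 0 < t → k (t • z) = t ^ (-(2:ℤ)) * k z) ∧
    IntegrableOn k {x : ℂ | 1 ≤ ‖x‖ ∧ ‖x‖ ≤ 2} ∧
    (∫ x in {x : ℂ | 1 ≤ ‖x‖ ∧ ‖x‖ ≤ 2}, k x) = 0 ∧
    IntegrableOn (fun x => |k x| * max 0 (Real.log |k x|)) {x : ℂ | 1 ≤ ‖x‖ ∧ ‖x‖ ≤ 2} ∧
    ∀ C : ℝ, ∃ f : ℂ → ℝ, Continuous f ∧ HasCompactSupport f ∧ (∀ x, |f x| ≤ 1) ∧
      ∃ g : ℂ → ℝ, (∀ x, Tendsto (fun ε : ℝ => ∫ y in {y : ℂ | ε < ‖y‖}, k y * f (x - y))
        (𝓝[>] 0) (𝓝 (g x))) ∧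
        (IntegrableOn g (ball (0:ℂ) 1) →
          C < ⨍ x in ball (0:ℂ) 1, |g x - ⨍ y in ball (0:ℂ) 1, g y|) := by
  obtain ⟨m₀, hm₀, hth⟩ := exists_threshold
  obtain ⟨W, hW, hWI, hW2, hW0, hcos, hsin⟩ := exists_W (Nk m₀) (Nk_inj hm₀)
    (fun k => by have := Nk_two hm₀ k; omega)
  refine ⟨kk W, kk_meas hW, kk_homog W, (kk_annulus hW hWI hW0 one_pos).1,
    (kk_annulus hW hWI hW0 one_pos).2, kk_llogl hW hW2, fun C => ?_⟩
  have hdiv := Real.tendsto_sum_range_one_div_nat_succ_atTop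
  obtain ⟨K, hK⟩ := (hdiv.eventually (eventually_gt_atTop (3 * C / c0))).exists
  obtain ⟨L, hL⟩ := fK_lip hm₀ K
  refine ⟨fK m₀ K, (fK_smooth hm₀ K).continuous, fK_cs hm₀ K, fK_abs hm₀ K, GG W (fK m₀ K),
    fun x => pv hW hWI hW0 (fK_smooth hm₀ K).continuous (fK_abs hm₀ K)
      (fun z hz => fK_out hm₀ K hz) hL x, fun hg => ?_⟩
  have h1 := osc hg
  rw [key hm₀ K hW hWI hW0 hcos hsin] at h1
  have h2 : ∑ k ∈ Finset.range K, (c0 / 2) * (2 * π / (k + 1)) ≤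
      ∑ k ∈ Finset.range K, cN (Nk m₀ k) * (2 * π / (k + 1)) := by
    apply Finset.sum_le_sum
    intro k _
    apply mul_le_mul_of_nonneg_right _ (by positivity)
    unfold Nk
    apply hth
    have : 1 ≤ 4 ^ k := Nat.one_le_pow _ _ (by norm_num)
    nlinarith
  have h3 : ∑ k ∈ Finset.range K, (c0 / 2) * (2 * π / (k + 1)) =
      π * (c0 * ∑ k ∈ Finset.range K, 1 / ((k : ℝ) + 1)) := by
    rw [Finset.mul_sum, Finset.mul_sum]
    apply Finset.sum_congr rfl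
    intro k _
    field_simp
  have hc0 := c0_pos
  have hpi := Real.pi_pos
  have h4 : 3 * C < c0 * ∑ k ∈ Finset.range K, 1 / ((k : ℝ) + 1) := by
    rw [div_lt_iff₀ hc0] at hK
    linarith
  have h5 : π * (3 * C) < π * (3 * ⨍ x in ball (0:ℂ) 1,
      |GG W (fK m₀ K) x - ⨍ y in ball (0:ℂ) 1, GG W (fK m₀ K) y|) := by
    calc π * (3 * C) < π * (c0 * ∑ k ∈ Finset.range K, 1 / ((k : ℝ) + 1)) :=
          mul_lt_mul_of_pos_left h4 hpi
      _ ≤ _ := by rw [← h3]; refine h2.trans (h1.trans (le_of_eq ?_)); ring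
  have h6 := lt_of_mul_lt_mul_left h5 hpi.le
  linarith

/-- transfer -/
theorem main :
    ¬ (∀ (n : ℕ), 1 ≤ n →
    ∀ (k : EuclideanSpace ℝ (Fin n) → ℝ), Measurable k →
    (∀ x : EuclideanSpace ℝ (Fin n), x ≠ 0 → ∀ t : ℝ, 0 < t →
        k (t • x) = t ^ (-(n : ℤ)) * k x) →
    IntegrableOn k {x : EuclideanSpace ℝ (Fin n) | 1 ≤ ‖x‖ ∧ ‖x‖ ≤ 2} volume →
    (∫ x in {x : EuclideanSpace ℝ (Fin n) | 1 ≤ ‖x‖ ∧ ‖x‖ ≤ 2}, k x) = 0 →
    IntegrableOn (fun x => |k x| * max 0 (Real.log |k x|))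
        {x : EuclideanSpace ℝ (Fin n) | 1 ≤ ‖x‖ ∧ ‖x‖ ≤ 2} volume →
    ∃ C : ℝ, ∀ (f : EuclideanSpace ℝ (Fin n) → ℝ) (M : ℝ),
      Measurable f → HasCompactSupport f → (∀ x, |f x| ≤ M) →
      ∀ g : EuclideanSpace ℝ (Fin n) → ℝ,
        (∀ᵐ x ∂(volume : Measure (EuclideanSpace ℝ (Fin n))),
          Tendsto (fun ε : ℝ => ∫ y in {y : EuclideanSpace ℝ (Fin n) | ε < ‖y‖}, k y * f (x - y))
            (𝓝[>] 0) (𝓝 (g x))) →
        ∀ (c : EuclideanSpace ℝ (Fin n)) (r : ℝ), 0 < r →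
          IntegrableOn g (ball c r) volume ∧
          (⨍ x in ball c r, |g x - ⨍ y in ball c r, g y|) ≤ C * M) := by
  intro H
  obtain ⟨k, hkm, hkh, hki, hk0, hkl, hC⟩ := complex_version
  let e : EuclideanSpace ℝ (Fin 2) ≃ₗᵢ[ℝ] ℂ := Complex.orthonormalBasisOneI.repr.symm
  have hmp : MeasurePreserving e := e.measurePreserving
  have hme : MeasurableEmbedding e := e.toHomeomorph.measurableEmbedding
  have hset : ∀ (P : ℝ → Prop), {x : EuclideanSpace ℝ (Fin 2) | P ‖x‖} = e ⁻¹' {z : ℂ | P ‖z‖} := by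
    intro P
    ext x
    show P ‖x‖ ↔ P ‖e x‖
    rw [LinearIsometryEquiv.norm_map]
  have hball : ball (0 : EuclideanSpace ℝ (Fin 2)) 1 = e ⁻¹' ball (0:ℂ) 1 := by
    ext x
    rw [mem_preimage, mem_ball_zero_iff, mem_ball_zero_iff, LinearIsometryEquiv.norm_map]
  have hint : ∀ (u : ℂ → ℝ) (s : Set ℂ), ∫ x in e ⁻¹' s, u (e x) = ∫ z in s, u z := fun u s =>
    hmp.setIntegral_preimage_emb hme u s
  have hintOn : ∀ (u : ℂ → ℝ) (s : Set ℂ), IntegrableOn (fun x => u (e x)) (e ⁻¹' s) ↔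
      IntegrableOn u s := fun u s => hmp.integrableOn_comp_preimage hme
  obtain ⟨C, hC'⟩ := H 2 (by norm_num) (fun x => k (e x)) (hkm.comp hme.measurable)
    (by
      intro x _ t ht
      rw [map_smul]
      exact hkh (e x) t ht)
    (by
      rw [hset (fun r => 1 ≤ r ∧ r ≤ 2)]
      exact (hintOn k _).2 hki)
    (by
      rw [hset (fun r => 1 ≤ r ∧ r ≤ 2), hint]
      exact hk0)
    (by
      rw [hset (fun r => 1 ≤ r ∧ r ≤ 2)]
      exact (hintOn (fun x => |k x| * max 0 (Real.log |k x|)) _).2 hkl)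
  obtain ⟨f, hfc, hfs, hf1, g, hg, hgC⟩ := hC C
  obtain ⟨h1, h2⟩ := hC' (fun x => f (e x)) 1 (hfc.measurable.comp hme.measurable)
    (hfs.comp_homeomorph e.toHomeomorph) (fun x => hf1 _) (fun x => g (e x))
    (by
      refine ae_of_all _ fun x => ?_
      refine (hg (e x)).congr fun ε => ?_
      rw [hset (fun r => ε < r), ← hint]
      congr 1
      ext y
      rw [map_sub]) 0 1 one_pos
  rw [hball] at h1 h2
  have h3 := (hintOn g _).1 h1
  have h4 := hgC h3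
  have hav : ∀ u : ℂ → ℝ, ⨍ x in e ⁻¹' ball (0:ℂ) 1, u (e x) = ⨍ z in ball (0:ℂ) 1, u z := by
    intro u
    rw [setAverage_eq, setAverage_eq, hint, measureReal_def, measureReal_def,
      hmp.measure_preimage_emb hme]
  rw [hav g] at h2
  have h5 := hav (fun x => |g x - ⨍ z in ball (0:ℂ) 1, g z|)
  rw [h5, mul_one] at h2
  linarith

end Pool.Agent.X153.Riv
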