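import Pool.Agent.X153.Riv.Const

set_option autoImplicit false
open MeasureTheory Set Filter Topology Real Metric

namespace Pool.Agent.X153.Riv

lemma Ph_polar (N : ℕ) (y : ℂ) :
    Ph N y = (((Real.cos (N * Complex.arg y) : ℝ) : ℂ) +
      ((Real.sin (N * Complex.arg y) : ℝ) : ℂ) * Complex.I) * Ph N (‖y‖ : ℂ) := by
  have h1 : ‖Complex.exp (Complex.arg y * Complex.I)‖ = 1 := Complex.norm_exp_ofReal_mul_I _
  have h2 := Ph_rot h1 N (‖y‖ : ℂ)
  have h3 : Complex.exp (Complex.arg y * Complex.I) * (‖y‖ : ℂ) = y := by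
    rw [mul_comm]; exact Complex.norm_mul_exp_arg_mul_I y
  rw [h3] at h2
  rw [h2, ← Complex.exp_nat_mul]
  congr 1
  have h4 : (N : ℂ) * (Complex.arg y * Complex.I) = (((N * Complex.arg y : ℝ)) : ℂ) * Complex.I := by
    push_cast; ring
  rw [h4, Complex.exp_mul_I, Complex.ofReal_cos, Complex.ofReal_sin]

lemma rad_bdd {N : ℕ} (hN : 2 ≤ N) {b : ℝ → ℝ} (hb : Continuous b)
    (h0 : ∀ r, ¬ ((N:ℝ) - 1 < |r| ∧ |r| < 2 * N + 1) → b r = 0) :
    IntegrableOn (fun r => r⁻¹ * b r) (Ioi 0) := by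
  have hN' : (2:ℝ) ≤ N := by exact_mod_cast hN
  have h1 : IntegrableOn (fun r => r⁻¹ * b r) (Icc 1 (2 * N + 1)) := by
    apply ContinuousOn.integrableOn_Icc
    apply ContinuousOn.mul _ hb.continuousOn
    apply ContinuousOn.inv₀ continuousOn_id
    intro x hx
    exact (lt_of_lt_of_le one_pos hx.1).ne'
  apply h1.of_forall_sdiff_eq_zero measurableSet_Ioi
  rintro r ⟨hr, hr2⟩
  rw [h0 r, mul_zero]
  rintro ⟨h3, h4⟩
  rw [abs_of_pos hr] at h3 h4
  exact hr2 ⟨by linarith, by linarith⟩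

theorem pairing {W : ℝ → ℝ} (hW : Measurable W) (hWI : IntegrableOn W (Ioo (-π) π))
    {N : ℕ} (hN : 2 ≤ N) {q : ℝ}
    (hcos : ∫ θ in Ioo (-π) π, W θ * Real.cos (N * θ) = q)
    (hsin : ∫ θ in Ioo (-π) π, W θ * Real.sin (N * θ) = 0) :
    Integrable (fun y : ℂ => kk W y * (Ph N y).re) ∧
      ∫ y : ℂ, kk W y * (Ph N y).re = cN N * q := by
  have hN0 : 0 < N := by omega
  have hPc := Ph_cont hN0
  have hb1 : Continuous (fun r : ℝ => (Ph N (r : ℂ)).re) :=
    Complex.continuous_re.comp (hPc.comp Complex.continuous_ofReal)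
  have hb2 : Continuous (fun r : ℝ => (Ph N (r : ℂ)).im) :=
    Complex.continuous_im.comp (hPc.comp Complex.continuous_ofReal)
  have hz : ∀ r : ℝ, ¬ ((N:ℝ) - 1 < |r| ∧ |r| < 2 * N + 1) → Ph N (r : ℂ) = 0 := by
    intro r hr
    apply Ph_zero hN0
    rwa [Complex.norm_real, Real.norm_eq_abs]
  have hi1 := rad_bdd hN hb1 (fun r hr => by rw [hz r hr]; simp)
  have hi2 := rad_bdd hN hb2 (fun r hr => by rw [hz r hr]; simp)
  have hWc : IntegrableOn (fun θ => W θ * Real.cos (N * θ)) (Ioo (-π) π) := by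
    apply Integrable.mul_bdd (c := 1) hWI
    · exact (by fun_prop : Continuous fun θ : ℝ => Real.cos (N * θ)).aestronglyMeasurable
    · exact ae_of_all _ fun θ => Real.abs_cos_le_one _
  have hWs : IntegrableOn (fun θ => W θ * Real.sin (N * θ)) (Ioo (-π) π) := by
    apply Integrable.mul_bdd (c := 1) hWI
    · exact (by fun_prop : Continuous fun θ : ℝ => Real.sin (N * θ)).aestronglyMeasurable
    · exact ae_of_all _ fun θ => Real.abs_sin_le_one _
  have k1 := kk_radial (W := fun θ => W θ * Real.cos (N * θ)) (by fun_prop) hWc hb1.measurable hi1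
  have k2 := kk_radial (W := fun θ => W θ * Real.sin (N * θ)) (by fun_prop) hWs hb2.measurable hi2
  have e : (fun y : ℂ => kk W y * (Ph N y).re) = fun y : ℂ =>
      (Ph N (‖y‖ : ℂ)).re * kk (fun θ => W θ * Real.cos (N * θ)) y -
      (Ph N (‖y‖ : ℂ)).im * kk (fun θ => W θ * Real.sin (N * θ)) y := by
    ext y
    conv_lhs => rw [Ph_polar]
    rw [Complex.mul_re]
    have a1 : (((Real.cos (N * Complex.arg y) : ℝ) : ℂ) +
      ((Real.sin (N * Complex.arg y) : ℝ) : ℂ) * Complex.I).re = Real.cos (N * Complex.arg y) := by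
      rw [Complex.add_re, Complex.ofReal_re, Complex.mul_re, Complex.ofReal_re, Complex.ofReal_im,
        Complex.I_re, Complex.I_im]
      ring
    have a2 : (((Real.cos (N * Complex.arg y) : ℝ) : ℂ) +
      ((Real.sin (N * Complex.arg y) : ℝ) : ℂ) * Complex.I).im = Real.sin (N * Complex.arg y) := by
      rw [Complex.add_im, Complex.ofReal_im, Complex.mul_im, Complex.ofReal_re, Complex.ofReal_im,
        Complex.I_re, Complex.I_im]
      ring
    rw [a1, a2]
    unfold kk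
    ring
  rw [e]
  refine ⟨k1.1.sub k2.1, ?_⟩
  rw [integral_sub k1.1 k2.1, k1.2, k2.2, hcos, hsin, mul_zero, sub_zero]
  rfl

/-- the candidate for the singular integral -/
noncomputable def GG (W : ℝ → ℝ) (f : ℂ → ℝ) (x : ℂ) : ℝ :=
  (∫ y in {y : ℂ | ‖y‖ ≤ 1}, kk W y * (f (x - y) - f x)) +
    ∫ y in {y : ℂ | 1 < ‖y‖}, kk W y * f (x - y)

lemma ms_lt (a : ℝ) : MeasurableSet {y : ℂ | a < ‖y‖} := measurableSet_lt measurable_const measurable_norm
lemma ms_le (a : ℝ) : MeasurableSet {y : ℂ | ‖y‖ ≤ a} := measurableSet_le measurable_norm measurable_const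
lemma ms_cc (a b : ℝ) : MeasurableSet {y : ℂ | a ≤ ‖y‖ ∧ ‖y‖ ≤ b} :=
    (measurableSet_le measurable_const measurable_norm).inter
      (measurableSet_le measurable_norm measurable_const)
lemma ms_oc (a b : ℝ) : MeasurableSet {y : ℂ | a < ‖y‖ ∧ ‖y‖ ≤ b} :=
    (measurableSet_lt measurable_const measurable_norm).inter
      (measurableSet_le measurable_norm measurable_const)

/-- half-open annuli -/
lemma kk_oc {W : ℝ → ℝ} (hW : Measurable W) (hWI : IntegrableOn W (Ioo (-π) π))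
    (hW0 : ∫ θ in Ioo (-π) π, W θ = 0) {a b : ℝ} (ha : 0 < a) :
    ∫ z in {z : ℂ | a < ‖z‖ ∧ ‖z‖ ≤ b}, kk W z = 0 := by
  have h2 : IntegrableOn (fun r : ℝ => r⁻¹ * (Ioc a b).indicator 1 r) (Ioi 0) := by
    have h3 := (rad_ind a b ha)
    refine Integrable.mono h3 ?_ (ae_of_all _ fun r => ?_)
    · exact (measurable_inv.mul (measurable_one.indicator measurableSet_Ioc)).aestronglyMeasurable
    · rw [norm_mul, norm_mul]
      apply mul_le_mul_of_nonneg_left _ (norm_nonneg _)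
      by_cases hr : r ∈ Ioc a b
      · rw [indicator_of_mem hr, indicator_of_mem (Ioc_subset_Icc_self hr)]
      · rw [indicator_of_notMem hr, norm_zero]; exact norm_nonneg _
  have h1 := kk_radial hW hWI (b := (Ioc a b).indicator 1)
    (measurable_one.indicator measurableSet_Ioc) h2
  have e : (fun z : ℂ => (Ioc a b).indicator 1 ‖z‖ * kk W z) =
      {z : ℂ | a < ‖z‖ ∧ ‖z‖ ≤ b}.indicator (kk W) := by
    ext z
    by_cases hz : z ∈ {z : ℂ | a < ‖z‖ ∧ ‖z‖ ≤ b}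
    · rw [indicator_of_mem hz, indicator_of_mem (show ‖z‖ ∈ Ioc a b from hz)]; simp
    · rw [indicator_of_notMem hz, indicator_of_notMem (show ‖z‖ ∉ Ioc a b from hz)]; simp
  rw [e] at h1
  rw [← integral_indicator (ms_oc a b), h1.2, hW0, mul_zero]

lemma kk_off {W : ℝ → ℝ} (hW : Measurable W) (hWI : IntegrableOn W (Ioo (-π) π))
    (hW0 : ∫ θ in Ioo (-π) π, W θ = 0) {f : ℂ → ℝ} (hf : Continuous f) {M R : ℝ}
    (hM : ∀ z, |f z| ≤ M) (hR : ∀ z, R < ‖z‖ → f z = 0) (x : ℂ) {a : ℝ} (ha : 0 < a) :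
    IntegrableOn (fun y => kk W y * f (x - y)) {y : ℂ | a < ‖y‖} := by
  have h1 : IntegrableOn (fun y => kk W y * f (x - y)) {y : ℂ | a ≤ ‖y‖ ∧ ‖y‖ ≤ ‖x‖ + R} := by
    apply Integrable.mul_bdd (c := M) (kk_annulus hW hWI hW0 ha).1
    · exact (by fun_prop : Continuous fun y : ℂ => f (x - y)).aestronglyMeasurable
    · exact ae_of_all _ fun y => hM _
  apply h1.of_forall_sdiff_eq_zero (ms_lt a)
  rintro y ⟨hy1, hy2⟩
  rw [hR, mul_zero]
  by_contra hc
  push Not at hc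
  apply hy2
  refine ⟨le_of_lt hy1, ?_⟩
  have := norm_sub_le x (x - y)
  rw [sub_sub_cancel] at this
  linarith

theorem pv {W : ℝ → ℝ} (hW : Measurable W) (hWI : IntegrableOn W (Ioo (-π) π))
    (hW0 : ∫ θ in Ioo (-π) π, W θ = 0) {f : ℂ → ℝ} (hf : Continuous f) {M R L : ℝ}
    (hM : ∀ z, |f z| ≤ M) (hR : ∀ z, R < ‖z‖ → f z = 0)
    (hL : ∀ z w, |f z - f w| ≤ L * ‖z - w‖) (x : ℂ) :
    Tendsto (fun ε : ℝ => ∫ y in {y : ℂ | ε < ‖y‖}, kk W y * f (x - y)) (𝓝[>] 0)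
      (𝓝 (GG W f x)) := by
  have hkm := kk_meas hW
  have hL0 : 0 ≤ L := by
    have := (abs_nonneg _).trans (hL 1 0)
    simpa using this
  have hdom : IntegrableOn (fun y : ℂ => L * (‖y‖ * |kk W y|)) {y : ℂ | ‖y‖ ≤ 1} :=
    (kk_norm_ball hW hWI).const_mul L
  have hmeas : Measurable (fun y => kk W y * (f (x - y) - f x)) :=
    hkm.mul ((hf.measurable.comp (measurable_const.sub measurable_id)).sub_const _)
  have hbd : ∀ y, ‖kk W y * (f (x - y) - f x)‖ ≤ L * (‖y‖ * |kk W y|) := by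
    intro y
    rw [norm_mul, Real.norm_eq_abs, Real.norm_eq_abs]
    have h1 := hL (x - y) x
    have h2 : ‖x - y - x‖ = ‖y‖ := by rw [sub_sub_cancel_left, norm_neg]
    rw [h2] at h1
    calc |kk W y| * |f (x - y) - f x| ≤ |kk W y| * (L * ‖y‖) :=
          mul_le_mul_of_nonneg_left h1 (abs_nonneg _)
      _ = L * (‖y‖ * |kk W y|) := by ring
  have hint : IntegrableOn (fun y => kk W y * (f (x - y) - f x)) {y : ℂ | ‖y‖ ≤ 1} :=
    Integrable.mono' hdom hmeas.aestronglyMeasurable (ae_of_all _ hbd)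
  -- the near part
  have hnear : Tendsto (fun ε : ℝ => ∫ y in {y : ℂ | ‖y‖ ≤ 1},
      {y : ℂ | ε < ‖y‖}.indicator (fun y => kk W y * (f (x - y) - f x)) y) (𝓝[>] 0)
      (𝓝 (∫ y in {y : ℂ | ‖y‖ ≤ 1}, kk W y * (f (x - y) - f x))) := by
    apply tendsto_integral_filter_of_dominated_convergence (fun y : ℂ => L * (‖y‖ * |kk W y|))
    · exact Eventually.of_forall fun ε => (hmeas.indicator (ms_lt ε)).aestronglyMeasurable
    · refine Eventually.of_forall fun ε => ae_of_all _ fun y => ?_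
      refine le_trans ?_ (hbd y)
      exact norm_indicator_le_norm_self _ _
    · exact hdom
    · refine ae_of_all _ fun y => ?_
      by_cases hy : y = 0
      · have h0 : kk W y * (f (x - y) - f x) = 0 := by rw [hy, sub_zero, sub_self, mul_zero]
        rw [h0]
        have : (fun ε : ℝ => {y : ℂ | ε < ‖y‖}.indicator (fun y => kk W y * (f (x - y) - f x)) y) =
            fun _ => 0 := by
          ext ε
          by_cases h : y ∈ {y : ℂ | ε < ‖y‖}
          · rw [indicator_of_mem h, h0]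
          · rw [indicator_of_notMem h]
        rw [this]
        exact tendsto_const_nhds
      · have hy' : 0 < ‖y‖ := norm_pos_iff.2 hy
        apply tendsto_const_nhds.congr'
        have : ∀ᶠ ε : ℝ in 𝓝[>] 0, ε < ‖y‖ :=
          mem_nhdsWithin_of_mem_nhds (gt_mem_nhds hy')
        filter_upwards [this] with ε hε
        rw [indicator_of_mem (show y ∈ {y : ℂ | ε < ‖y‖} from hε)]
  have h := hnear.add_const (∫ y in {y : ℂ | 1 < ‖y‖}, kk W y * f (x - y))
  unfold GG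
  refine h.congr' ?_
  have hev : ∀ᶠ ε : ℝ in 𝓝[>] 0, 0 < ε ∧ ε < 1 := by
    refine Filter.Eventually.and self_mem_nhdsWithin ?_
    exact mem_nhdsWithin_of_mem_nhds (gt_mem_nhds one_pos)
  filter_upwards [hev] with ε hε
  have hoff := kk_off hW hWI hW0 hf hM hR x hε.1
  have hsplit : {y : ℂ | ε < ‖y‖} = {y : ℂ | ε < ‖y‖ ∧ ‖y‖ ≤ 1} ∪ {y : ℂ | 1 < ‖y‖} := by
    ext y
    simp only [mem_setOf_eq, mem_union]
    constructor
    · intro h
      by_cases h1 : ‖y‖ ≤ 1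
      · exact Or.inl ⟨h, h1⟩
      · exact Or.inr (not_le.1 h1)
    · rintro (h | h)
      · exact h.1
      · exact hε.2.trans h
  have hdisj : Disjoint {y : ℂ | ε < ‖y‖ ∧ ‖y‖ ≤ 1} {y : ℂ | 1 < ‖y‖} := by
    rw [Set.disjoint_left]
    intro y h1 h2
    exact absurd h1.2 (not_le.2 h2)
  have hsub : {y : ℂ | ε < ‖y‖ ∧ ‖y‖ ≤ 1} ⊆ {y : ℂ | ε < ‖y‖} := fun y hy => hy.1
  have hoc := hoff.mono_set hsub
  have h1c := hoff.mono_set (fun y (hy : y ∈ {y : ℂ | 1 < ‖y‖}) =>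
    (show y ∈ {y : ℂ | ε < ‖y‖} from hε.2.trans hy))
  have e3 : ∫ y in {y : ℂ | ε < ‖y‖}, kk W y * f (x - y) =
      (∫ y in {y : ℂ | ε < ‖y‖ ∧ ‖y‖ ≤ 1}, kk W y * f (x - y)) +
      ∫ y in {y : ℂ | 1 < ‖y‖}, kk W y * f (x - y) := by
    rw [hsplit]
    exact setIntegral_union hdisj (ms_lt 1) hoc h1c
  rw [e3]
  congr 1
  -- the annulus
  have e1 : ∫ y in {y : ℂ | ‖y‖ ≤ 1},
      {y : ℂ | ε < ‖y‖}.indicator (fun y => kk W y * (f (x - y) - f x)) y =
      ∫ y in {y : ℂ | ε < ‖y‖ ∧ ‖y‖ ≤ 1}, kk W y * (f (x - y) - f x) := by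
    rw [setIntegral_indicator (ms_lt ε)]
    congr 2
    ext y
    simp only [mem_inter_iff, mem_setOf_eq]
    exact and_comm
  rw [e1]
  have hkI : IntegrableOn (kk W) {y : ℂ | ε < ‖y‖ ∧ ‖y‖ ≤ 1} :=
    (kk_annulus hW hWI hW0 (b := 1) hε.1).1.mono_set (fun y hy => ⟨hy.1.le, hy.2⟩)
  have e2 : (fun y => kk W y * (f (x - y) - f x)) =
      fun y => kk W y * f (x - y) - kk W y * f x := by ext y; ring
  rw [e2, integral_sub hoc (hkI.mul_const _), integral_mul_const,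
    kk_oc hW hWI hW0 hε.1, zero_mul, sub_zero]

end Pool.Agent.X153.Riv
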