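import Mathlib

set_option autoImplicit false
open MeasureTheory Set Filter Topology Real
open scoped ENNReal

namespace Pool.Agent.X153.Riv

/-- the exponentials -/
noncomputable def ex (n : ℤ) (θ : ℝ) : ℂ := Complex.exp (-(n * θ * Complex.I))

lemma ex_eq (n : ℤ) (θ : ℝ) : ex n θ = ((Real.cos (n * θ) : ℝ) : ℂ) - ((Real.sin (n * θ) : ℝ) : ℂ) * Complex.I := by
  unfold ex
  have : -((n:ℂ) * θ * Complex.I) = ((-(n * θ) : ℝ) : ℂ) * Complex.I := by push_cast; ring
  rw [this, Complex.exp_mul_I, ← Complex.ofReal_cos, ← Complex.ofReal_sin, Real.cos_neg, Real.sin_neg]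
  push_cast
  ring

lemma ex_norm (n : ℤ) (θ : ℝ) : ‖ex n θ‖ = 1 := by
  unfold ex
  have : -((n:ℂ) * θ * Complex.I) = ((-(n * θ) : ℝ) : ℂ) * Complex.I := by push_cast; ring
  rw [this, Complex.norm_exp_ofReal_mul_I]

lemma ex_cont (n : ℤ) : Continuous (ex n) := by
  unfold ex
  fun_prop

lemma ex_re (n : ℤ) (θ : ℝ) : (ex n θ).re = Real.cos (n * θ) := by
  rw [ex_eq, Complex.sub_re, Complex.mul_re, Complex.ofReal_re, Complex.ofReal_re, Complex.ofReal_im,
    Complex.I_re, Complex.I_im]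
  ring

lemma ex_im (n : ℤ) (θ : ℝ) : (ex n θ).im = -Real.sin (n * θ) := by
  rw [ex_eq, Complex.sub_im, Complex.mul_im, Complex.ofReal_re, Complex.ofReal_im, Complex.ofReal_im,
    Complex.I_re, Complex.I_im]
  ring

lemma ex_conj (n : ℤ) (θ : ℝ) : (starRingEnd ℂ) (ex (-n) θ) = ex n θ := by
  apply Complex.ext
  · rw [Complex.conj_re, ex_re, ex_re]
    push_cast
    rw [neg_mul, Real.cos_neg]
  · rw [Complex.conj_im, ex_im, ex_im]
    push_cast
    rw [neg_mul, Real.sin_neg]
    ring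

/-- a square integrable function with prescribed lacunary Fourier coefficients -/
theorem exists_W (N : ℕ → ℕ) (hN : Function.Injective N) (h0 : ∀ k, 0 < N k) :
    ∃ W : ℝ → ℝ, Measurable W ∧ IntegrableOn W (Ioo (-π) π) ∧
      IntegrableOn (fun θ => W θ ^ 2) (Ioo (-π) π) ∧ (∫ θ in Ioo (-π) π, W θ = 0) ∧
      (∀ k, ∫ θ in Ioo (-π) π, W θ * Real.cos (N k * θ) = 2 * π / (k + 1)) ∧
      (∀ k, ∫ θ in Ioo (-π) π, W θ * Real.sin (N k * θ) = 0) := by
  have hT : Fact (0 < 2 * π) := ⟨by positivity⟩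
  set a : ℕ → ℂ := fun k => (((1:ℝ) / ((k:ℝ) + 1) : ℝ) : ℂ) with ha
  set M : ℕ → ℤ := fun k => (N k : ℤ) with hM
  have hMi : Function.Injective M := Nat.cast_injective.comp hN
  set c : ℤ → ℂ := Function.extend M a 0 with hc
  have hcM : ∀ k, c (M k) = a k := fun k => hMi.extend_apply a 0 k
  have hc0 : ∀ n, n ∉ range M → c n = 0 := by
    intro n hn
    rw [hc, Function.extend_apply' _ _ _ (by simpa using hn)]
    rfl
  have hsum : Summable fun n : ℤ => ‖c n‖ ^ 2 := by
    rw [← hMi.summable_iff]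
    · have h1 : ((fun n => ‖c n‖ ^ 2) ∘ M) = fun k : ℕ => 1 / ((k:ℝ) + 1) ^ 2 := by
        ext k
        show ‖c (M k)‖ ^ 2 = _
        rw [hcM, ha]
        simp only
        rw [Complex.norm_real, Real.norm_eq_abs, sq_abs, div_pow, one_pow]
      rw [h1]
      have h2 := (summable_nat_add_iff (f := fun n : ℕ => 1 / (n:ℝ) ^ 2) 1).2
        (Real.summable_one_div_nat_pow.2 (by norm_num))
      refine h2.congr fun k => ?_
      push_cast
      rfl
    · intro n hn
      rw [hc0 n hn]; simp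
  have hmem : Memℓp c 2 := memℓp_gen (by simpa using hsum)
  set cl : lp (fun _ : ℤ => ℂ) 2 := ⟨c, hmem⟩ with hcl
  set u : Lp ℂ 2 (@AddCircle.haarAddCircle (2 * π) hT) := fourierBasis.repr.symm cl with hu
  have hcoef : ∀ n : ℤ, fourierCoeff (u : AddCircle (2 * π) → ℂ) n = c n := by
    intro n
    rw [← fourierBasis_repr, hu, LinearIsometryEquiv.apply_symm_apply]
  have hum : Measurable (u : AddCircle (2 * π) → ℂ) := (Lp.stronglyMeasurable u).measurable
  set U : ℝ → ℂ := fun θ => (u : AddCircle (2 * π) → ℂ) (θ : AddCircle (2 * π)) with hU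
  have hUm : Measurable U := hum.comp (AddCircle.measurable_mk')
  have hIoc : Ioc (-π) (-π + 2 * π) = Ioc (-π) π := by congr 1; ring
  have hUL : MemLp U 2 (volume.restrict (Ioo (-π) π)) := by
    have h1 : MemLp (u : AddCircle (2 * π) → ℂ) 2 volume := memLp_haarAddCircle_iff.1 (Lp.memLp u)
    have h2 := h1.comp_measurePreserving (AddCircle.measurePreserving_mk (2 * π) (-π))
    rw [hIoc, ← restrict_Ioo_eq_restrict_Ioc] at h2
    exact h2
  have hUI : IntegrableOn U (Ioo (-π) π) := by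
    haveI : IsFiniteMeasure (volume.restrict (Ioo (-π) π)) := ⟨by
      rw [Measure.restrict_apply_univ]; exact measure_Ioo_lt_top⟩
    exact hUL.integrable (by norm_num)
  -- Fourier coefficients as integrals
  have hF : ∀ n : ℤ, ∫ θ in Ioo (-π) π, ex n θ * U θ = 2 * π * c n := by
    intro n
    have h1 := fourierCoeff_eq_intervalIntegral (u : AddCircle (2 * π) → ℂ) n (-π)
    rw [hcoef, intervalIntegral.integral_of_le (by linarith [pi_pos]), hIoc,
      ← restrict_Ioo_eq_restrict_Ioc] at h1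
    have h2 : ∀ θ : ℝ, fourier (-n) (θ : AddCircle (2 * π)) • (u : AddCircle (2 * π) → ℂ) (θ : AddCircle (2 * π))
        = ex n θ * U θ := by
      intro θ
      rw [fourier_coe_apply, smul_eq_mul]
      unfold ex
      congr 2
      have : (π : ℂ) ≠ 0 := by exact_mod_cast pi_pos.ne'
      push_cast
      field_simp
    simp_rw [h2] at h1
    rw [h1]
    have : (π : ℂ) ≠ 0 := by exact_mod_cast pi_pos.ne'
    rw [Complex.real_smul]
    push_cast
    field_simp
  -- the real function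
  set W : ℝ → ℝ := fun θ => 2 * (U θ).re with hW
  have hexpI : ∀ n : ℤ, IntegrableOn (fun θ => ex n θ * U θ) (Ioo (-π) π) := fun n =>
    hUI.bdd_mul (c := 1) (ex_cont n).aestronglyMeasurable (ae_of_all _ fun θ => (ex_norm n θ).le)
  have hWc : ∀ n : ℤ, ∫ θ in Ioo (-π) π, ex n θ * (W θ : ℂ) =
      2 * π * (c n + (starRingEnd ℂ) (c (-n))) := by
    intro n
    have h1 : ∀ θ : ℝ, ex n θ * (W θ : ℂ) = ex n θ * U θ + (starRingEnd ℂ) (ex (-n) θ * U θ) := by
      intro θ
      rw [map_mul, ex_conj, ← mul_add]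
      congr 1
      rw [Complex.add_conj]
    simp_rw [h1]
    rw [integral_add (hexpI n), hF n]
    · have h2 := integral_conj (μ := volume.restrict (Ioo (-π) π))
        (f := fun θ : ℝ => ex (-n) θ * U θ)
      rw [h2, hF (-n), map_mul, map_mul, Complex.conj_ofReal, Complex.conj_ofNat]
      ring
    · exact (Complex.conjLIE.toContinuousLinearEquiv.toContinuousLinearMap.integrable_comp (hexpI (-n)))
  have hWI : IntegrableOn W (Ioo (-π) π) := (hUI.re).const_mul 2
  have hWexp : ∀ n : ℤ, IntegrableOn (fun θ => ex n θ * (W θ : ℂ)) (Ioo (-π) π) := fun n =>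
    (hWI.ofReal).bdd_mul (c := 1) (ex_cont n).aestronglyMeasurable (ae_of_all _ fun θ => (ex_norm n θ).le)
  have hre : ∀ n : ℤ, ∫ θ in Ioo (-π) π, W θ * Real.cos (n * θ) =
      (2 * π * (c n + (starRingEnd ℂ) (c (-n)))).re := by
    intro n
    rw [← hWc n]
    have h1 := integral_re (hWexp n)
    have h2 : (∫ θ in Ioo (-π) π, ex n θ * (W θ : ℂ)).re =
      ∫ θ in Ioo (-π) π, (ex n θ * (W θ : ℂ)).re := h1.symm
    rw [h2]
    congr 1
    ext θ
    rw [Complex.mul_re, ex_re, ex_im, Complex.ofReal_re, Complex.ofReal_im]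
    ring
  have him : ∀ n : ℤ, ∫ θ in Ioo (-π) π, W θ * Real.sin (n * θ) =
      -(2 * π * (c n + (starRingEnd ℂ) (c (-n)))).im := by
    intro n
    rw [← hWc n]
    have h1 := integral_im (hWexp n)
    have h2 : (∫ θ in Ioo (-π) π, ex n θ * (W θ : ℂ)).im =
      ∫ θ in Ioo (-π) π, (ex n θ * (W θ : ℂ)).im := h1.symm
    rw [h2, ← integral_neg]
    congr 1
    ext θ
    rw [Complex.mul_im, ex_re, ex_im, Complex.ofReal_re, Complex.ofReal_im]
    ring
  have hneg : ∀ k, c (-(M k)) = 0 := by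
    intro k
    apply hc0
    rintro ⟨j, hj⟩
    have h1 : (0:ℤ) < M k := Int.natCast_pos.2 (h0 k)
    have h2 : (0:ℤ) < M j := Int.natCast_pos.2 (h0 j)
    omega
  refine ⟨W, ?_, hWI, ?_, ?_, ?_, ?_⟩
  · exact (Complex.measurable_re.comp hUm).const_mul 2
  · have h1 : Integrable (fun θ => ‖U θ‖ ^ 2) (volume.restrict (Ioo (-π) π)) := by
      have := hUL.integrable_norm_rpow (by norm_num) (by norm_num)
      simpa using this
    refine (h1.const_mul 4).mono' ?_ (ae_of_all _ fun θ => ?_)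
    · exact (((Complex.measurable_re.comp hUm).const_mul 2).pow_const 2).aestronglyMeasurable
    · rw [Real.norm_eq_abs, abs_of_nonneg (sq_nonneg _), hW]
      simp only
      have h2 : (U θ).re ^ 2 ≤ ‖U θ‖ ^ 2 := by
        rw [← sq_abs (U θ).re]
        have := Complex.abs_re_le_norm (U θ)
        gcongr
      nlinarith
  · have h1 := hre 0
    have h2 : c 0 = 0 := by
      apply hc0
      rintro ⟨j, hj⟩
      have h2 : (0:ℤ) < M j := Int.natCast_pos.2 (h0 j)
      omega
    simpa [h2] using h1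
  · intro k
    have h1 := hre (M k)
    have h2 : ((M k : ℤ) : ℝ) = (N k : ℝ) := by simp [hM]
    rw [h2] at h1
    rw [h1, hneg k, hcM k, ha]
    simp only
    rw [map_zero, add_zero]
    have : (2 * (π:ℂ) * (((1:ℝ) / ((k:ℝ) + 1) : ℝ) : ℂ)) = ((2 * π * (1 / ((k:ℝ) + 1)) : ℝ) : ℂ) := by
      push_cast; ring
    rw [this, Complex.ofReal_re]
    ring
  · intro k
    have h1 := him (M k)
    have h2 : ((M k : ℤ) : ℝ) = (N k : ℝ) := by simp [hM]
    rw [h2] at h1
    rw [h1, hneg k, hcM k, ha]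
    simp only
    rw [map_zero, add_zero]
    have : (2 * (π:ℂ) * (((1:ℝ) / ((k:ℝ) + 1) : ℝ) : ℂ)) = ((2 * π * (1 / ((k:ℝ) + 1)) : ℝ) : ℂ) := by
      push_cast; ring
    rw [this, Complex.ofReal_im, neg_zero]

end Pool.Agent.X153.Riv
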